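import Pool.Agent.Helper48.ROK.Nrm
import Pool.Agent.Helper29.MX.Bas
import Pool.Agent.Helper18.SRT.Row

/-! ROWS OF K-LABELS (7): FRAMES FROM THE NUMBERS, in the vocabulary of `Helper29/MX/St`. If the volumes of all prefixes
are linear at the windows `(0, c]` (all degrees; one degree attains them at every window), on all events of all
extensions, then there is a literal K-label of the window `c` with a frame with the exponents `w_j c`, which carries optimal
forms of all degrees. -/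

set_option autoImplicit false

namespace Pool.Agent.Helper48.ROK

open Finset Filter Topology Matrix Pool.Agent.Helper69.RK Pool.Agent.Helper31.EC Pool.Agent.Helper31.EC.Sp
open Pool.Agent.Helper40.EL Pool.Agent.Helper89.LX Pool.Agent.Helper3.LF Pool.Agent.Helper84.MT
open Pool.Agent.Helper89.RAK (Lit KC)
open Pool.Agent.Helper36.AM (Frm STu)
open Pool.Agent.Helper85.FRG (Car)
open Pool.Agent.Helper87.NSL (KnS cndR)
open Pool.Agent.Helper7.RD (volC volCO volC_eq volCO_le)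
open Pool.Agent.Helper89.RAD (cnA dp)
open Pool.Agent.Helper29.MX

noncomputable section

variable {S T : Sp} {M N D : ℕ} {E : ℕ → ℕ} {ι κ : Type}

/-- THE NUMBERS at the window `c`: the volume of the first `j` coordinates is `j - (w_0 + .. + w_(j-1)) c` -/
def NumS (c : ℝ) (w : Fin M → ℝ) (s : MSys S M E ι) (R : Rsl S) : Prop :=
  ∀ (j : ℕ) (hj : j ≤ M), volP s R c hj = j - (∑ i : Fin M, if i.val < j then w i else 0) * c

/-- the degree `D` attains the volumes of all prefixes at the window `c` -/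
def AttS (D : ℕ) (c : ℝ) (s : MSys S M E ι) (R : Rsl S) : Prop :=
  ∀ (j : ℕ) (hj : j ≤ M), volC (KZ R) (cndR s R c) (pfx s.Q hj) D ≤ volP s R c hj

theorem AttS.mono {D D' : ℕ} (h : D ≤ D') {c : ℝ} {s : MSys S M E ι} {R : Rsl S} (hA : AttS D c s R) :
    AttS D' c s R := fun j hj => (Pool.Agent.Helper18.SRT.volC_deg _ _ _ h).trans (hA j hj)

theorem sum_pre (w : Fin M → ℝ) (c : ℝ) {m : ℕ} (hm : m ≤ M) :
    (∑ i : Fin M, if i.val < m then 1 - w i * c else 0) = m - (∑ i : Fin M, if i.val < m then w i else 0) * c := by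
  have e1 : ∀ i : Fin M, (if i.val < m then 1 - w i * c else 0) =
      (if i.val < m then (1 : ℝ) else 0) - (if i.val < m then w i else 0) * c := by
    intro i
    by_cases h : i.val < m
    · rw [if_pos h, if_pos h, if_pos h]
    · rw [if_neg h, if_neg h, if_neg h, zero_mul, sub_zero]
  rw [Finset.sum_congr rfl fun i _ => e1 i, Finset.sum_sub_distrib, ← Finset.sum_mul]
  congr 1
  rw [Finset.sum_ite, Finset.sum_const_zero, add_zero, Finset.sum_const, nsmul_eq_mul, mul_one]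
  congr 1
  have h1 : (Finset.univ.filter fun i : Fin M => i.val < m) = (Finset.univ : Finset (Fin m)).map (Fin.castLEEmb hm) := by
    ext i
    simp only [Finset.mem_filter, Finset.mem_univ, true_and, Finset.mem_map]
    constructor
    · intro h
      exact ⟨⟨i.val, h⟩, rfl⟩
    · rintro ⟨a, rfl⟩
      exact a.isLt
  rw [h1, Finset.card_map, Finset.card_univ, Fintype.card_fin]

/-- numbers and degrees give the volumes -/
theorem NumS.volS {D : ℕ} {c : ℝ} {w : Fin M → ℝ} {s : MSys S M E ι} {R : Rsl S} (hN : NumS c w s R)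
    (hA : AttS D c s R) : VolS s R D c w := by
  intro m hm
  rw [sum_pre w c hm, ← hN m hm]
  have e1 : cnA s (dp R) c = cndR s R c := (cndR_eq s R c).symm
  rw [e1]
  exact le_antisymm (hA m hm) (volCO_le D)

/-- one degree for the structure theorems of the smaller dimensions -/
theorem exists_stm (hst : ∀ m, m < M → STu m) (g : ℕ) : ∃ D₁ : ℕ, 1 ≤ D₁ ∧ ∀ D, D₁ ≤ D → ∀ d, d < M → ∀ r,
    STm D d (lin g) (Fin r) := by
  have h1 : ∀ m : Fin M, ∃ D₁ : ℕ, ∀ D, D₁ ≤ D → ∀ r : ℕ, STm D m.val (lin g) (Fin r) := fun m => hst m.val m.isLt g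
  choose D₁ hD using h1
  refine ⟨(∑ m, D₁ m) + 1, Nat.le_add_left _ _, fun D h d hd r => hD ⟨d, hd⟩ D ?_ r⟩
  have h2 := Finset.single_le_sum (f := D₁) (fun i _ => Nat.zero_le _) (Finset.mem_univ (⟨d, hd⟩ : Fin M))
  omega

/-- the volumes of the window -/
theorem volW_of {g : ℕ} {s : MSys S M (lin g) ι} {R : Rsl S} (hst : ∀ m, m < M → STu m) {c : ℝ} {w : Fin M → ℝ}
    (hN : NumS c w s R) (hNX : AllE (fun _ t R' => NumS c w t R') S s R) {D₀ : ℕ} (hA : AttS D₀ c s R)
    (hAX : AllE (fun _ t R' => AttS D₀ c t R') S s R) : VolW s R c w := by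
  obtain ⟨D₁, h1, h2⟩ := exists_stm hst g
  refine ⟨max D₁ D₀, h1.trans (le_max_left _ _), h2 _ (le_max_left _ _), hN.volS (hA.mono (le_max_right _ _)), ?_⟩
  intro T p A hA'
  exact NumS.volS (S := Sp.im p A) (s := s.im p A hA') (hNX T p A hA')
    (AttS.mono (S := Sp.im p A) (s := s.im p A hA') (le_max_right _ _) (hAX T p A hA'))

/-- carriers are K-labels with optimal forms of all degrees -/
theorem Car.kop {s : MSys S M E ι} {R : Rsl S} {c : ℝ} {l : Lab S} (h : Car s R (fun k => fc (R k)) c l) (D : ℕ) :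
    ∃ x : ∀ k, FD (S.F k) (Mon M D), (∀ k, (x k).l = l k) ∧ KOp s R D c x := by
  obtain ⟨x, hx, ho⟩ := h D
  refine ⟨x, hx, ?_⟩
  have h1 := opt_scw.1 ho
  have e1 : cndR s R c = cnA s (dp R) c := cndR_eq s R c
  show (gaq s.Q D).OptfK (KZ R) (cndR s R c) x
  rw [e1]
  exact h1

theorem Car.klb {s : MSys S M E ι} {R : Rsl S} {c : ℝ} {l : Lab S} (h : Car s R (fun k => fc (R k)) c l) :
    KLb s R c l := h.dmR

/-- **FRAMES FROM THE NUMBERS** -/
theorem frames_mx [Finite ι] {g : ℕ} {s : MSys S M (lin g) ι} {R : Rsl S} (hst : ∀ m, m < M → STu m) (hP : Pt s R)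
    {w : Fin M → ℝ} (hw : ∀ i, 1 ≤ w i) {c : ℝ} (hc : 0 < c) (hwc : ∀ i, w i * c < 1) (hc1 : c < 1)
    (hN : ∀ c' : ℝ, 0 < c' → c' ≤ c → NumS c' w s R)
    (hNX : ∀ c' : ℝ, 0 < c' → c' ≤ c → AllE (fun _ t R' => NumS c' w t R') S s R)
    (hA : ∀ c' : ℝ, 0 < c' → c' ≤ c → ∃ D₀, AttS D₀ c' s R ∧ AllE (fun _ t R' => AttS D₀ c' t R') S s R) :
    ∃ (Z : ∀ k, Setoid (S.F k).Ω) (_ : Frm s.Q (Lab.ofZ Z) fun j => w j * c), (∀ᶠ k in UF, R k ⊓ (S.F k).Z ≤ Z k) ∧
      KLb s R c (Lab.ofZ Z) ∧ ∀ D, ∃ x : ∀ k, FD (S.F k) (Mon M D), (∀ k, (x k).l = Lab.ofZ Z k) ∧ KOp s R D c x := by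
  obtain ⟨Z, f, h1, h2⟩ := frames_lit s hP hw hc hwc hc1 fun c' h0 h1 => by
    obtain ⟨D₀, a, b⟩ := hA c' h0 h1
    exact volW_of hst (hN c' h0 h1) (hNX c' h0 h1) a b
  exact ⟨Z, f, h1, Car.klb h2, fun D => Car.kop h2 D⟩

end

end Pool.Agent.Helper48.ROK
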