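import Pool.Agent.Helper48.ROK.Fmn
import Pool.Agent.Helper95.VIS.Ma

/-! FRAMES OF GIVEN CARRIERS (2): a partition which is finer by `o(n)` bits carries the same optimal forms; carriers of all
degrees and minimal carriers with frames. -/

set_option autoImplicit false

namespace Pool.Agent.Helper48.ROK

open Finset Filter Topology Matrix MvPolynomial Pool.Agent.Helper69.RK Pool.Agent.Helper31.EC
open Pool.Agent.Helper31.EC.Sp
open Pool.Agent.Helper40.EL Pool.Agent.Helper89.LX Pool.Agent.Helper3.LF Pool.Agent.Helper84.MT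
open Pool.Agent.Helper89.RAK (KC)
open Pool.Agent.Helper36.AM (Frm)
open Pool.Agent.Helper66.NJ (Kn1 zFD zFD_g gG gG_eq opt_zFD zFD_sc)
open Pool.Agent.Helper87.NSL (KnS cndR)
open Pool.Agent.Helper85.FRG (Car FF exists_ff)
open Pool.Agent.Helper95.VIS (MinA MinC)
open Pool.Agent.Helper29.MX

noncomputable section

variable {S : Sp} {M D : ℕ} {κ : Type}

/-- SMALL REFINEMENTS: `W` is finer than `X` by `o(n)` bits, a function of `R` and the base -/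
structure SmR (R X W : ∀ k, Setoid (S.F k).Ω) : Prop where
  lit : ∀ᶠ k in UF, R k ⊓ (S.F k).Z ≤ W k
  le : ∀ k, W k ≤ X k
  nul : Nul S (fun k => h (fc (W k)) (fc (X k)))

section
variable {R X W : ∀ k, Setoid (S.F k).Ω} {A : κ → Part S}

theorem SmR.dmf (h : SmR R X W) (hX : (Lab.ofZ X).DMf A) : (Lab.ofZ W).DMf A :=
  (Lab.ofZ_DMf W).mpr fun i => PLe.trans (B := fun k => fc (X k)) h.nul ((Lab.ofZ_DMf X).mp hX i)

theorem SmR.kn {β : Type} {G : ∀ k, (S.F k).Ω → β} (h : SmR R X W) (hG : ∀ᶠ k in UF, Kn1 (X k) (G k)) :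
    ∀ᶠ k in UF, Kn1 (W k) (G k) := by
  filter_upwards [hG] with k hk
  exact hk.mono (h.le k)

/-- the same optimal forms -/
theorem SmR.opt [Finite κ] {J : Type} [Fintype J] [DecidableEq J] (Φ : Gau S J) {G : ∀ k, (S.F k).Ω → Matrix J J ℝ}
    (h : SmR R X W) (hG : ∀ᶠ k in UF, Kn1 (X k) (G k))
    (hO : Φ.OptfK (LC.kz fun k => fc (R k)) A (fun k => zFD (X k) (G k))) :
    Φ.OptfK (LC.kz fun k => fc (R k)) A (fun k => zFD (W k) (G k)) := by
  have h1 : (Lab.ofZ X).DMf A := by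
    have h3 := Gau.AdfK.dm Φ hO.1
    exact h3
  exact opt_zFD Φ hG hO (Eventually.of_forall h.le) h.lit (h.dmf h1)

theorem SmR.minC [Finite κ] {J : Type} [Fintype J] [DecidableEq J] {Φ : Gau S J} (h : SmR R X W) (hX : MinC Φ R A X) :
    MinC Φ R A W := by
  obtain ⟨G, g1, g2, g3⟩ := hX.car
  refine ⟨h.lit, G, h.kn g1, h.opt Φ g1 g2, (h.nul.add g3).of_le (Eventually.of_forall fun k => h_nonneg _ _)
    (Eventually.of_forall fun k => h_triangle' _ _ _)⟩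

theorem SmR.minA [Finite κ] {α : Type} {J : α → Type} [∀ a, Fintype (J a)] [∀ a, DecidableEq (J a)]
    {Φ : ∀ a, Gau S (J a)} (h : SmR R X W) (hX : MinA Φ R A X) : MinA Φ R A W := by
  refine ⟨h.lit, h.dmf hX.dmf, fun a => ?_, fun l hl => ?_⟩
  · obtain ⟨G, g1, g2⟩ := hX.car a
    exact ⟨G, h.kn g1, h.opt (Φ a) g1 g2⟩
  · refine (h.nul.add (hX.min l hl)).of_le (Eventually.of_forall fun k => h_nonneg _ _)
      (Eventually.of_forall fun k => ?_)
    have h5 := h_triangle' ((l k).p.map (fc (W k))) ((l k).p.map (fc (X k))) ((l k).v)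
    rw [(l k).p.h_map] at h5
    exact h5

/-- `FRMIN` with small refinements -/
theorem frm_small [Finite κ] {Q : S.VV M} {G : ∀ k, (S.F k).Ω → Matrix (Mon M D) (Mon M D) ℝ} (hR : KnS R Q.v)
    (hX : ∀ᶠ k in UF, R k ⊓ (S.F k).Z ≤ X k) (hG : ∀ᶠ k in UF, Kn1 (X k) (G k))
    (hO : (gaq Q D).OptfK (LC.kz fun k => fc (R k)) A (fun k => zFD (X k) (G k)))
    {l : Lab S} {La : Fin M → ℝ} (f : Frm Q l La) (hl : l.DMf A) (hC : (LC.kz fun k => fc (R k)).ev l)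
    (h0 : ∀ i, 0 ≤ La i) (h1 : ∀ i, La i ≤ 1) {d : ℕ} (hd : ∀ k ω j, (f.P k ω j).totalDegree ≤ d)
    (hD : (d + 1) ^ M ≤ D) : ∃ (W : ∀ k, Setoid (S.F k).Ω) (g : Frm Q (Lab.ofZ W) La),
      (∀ k ω j, (g.P k ω j).totalDegree ≤ d) ∧ SmR R X W := by
  obtain ⟨W, g, a, b, c, e⟩ := frmin hR hX hG hO f hl hC h0 h1 hd hD
  exact ⟨W, g, a, ⟨b, c, e⟩⟩

/-- **MINIMAL CARRIERS (of all degrees) WITH A FRAME** -/
theorem minA_frm [Finite κ] {Q : S.VV M} (hR : KnS R Q.v) (hX : MinA (fun D => gaq Q D) R A X) {l : Lab S}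
    {La : Fin M → ℝ} (f : Frm Q l La) (hl : l.DMf A) (hC : (LC.kz fun k => fc (R k)).ev l) (h0 : ∀ i, 0 ≤ La i)
    (h1 : ∀ i, La i ≤ 1) {d : ℕ} (hd : ∀ k ω j, (f.P k ω j).totalDegree ≤ d) :
    ∃ (W : ∀ k, Setoid (S.F k).Ω) (g : Frm Q (Lab.ofZ W) La), (∀ k ω j, (g.P k ω j).totalDegree ≤ d) ∧ SmR R X W ∧
      MinA (fun D => gaq Q D) R A W := by
  obtain ⟨G, g1, g2⟩ := hX.car ((d + 1) ^ M)
  obtain ⟨W, g, a, b⟩ := frm_small hR hX.lit g1 g2 f hl hC h0 h1 hd le_rfl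
  exact ⟨W, g, a, b, b.minA hX⟩

end

/-! ### labels of the space with forms -/

section
variable {J : Type} [Fintype J] [DecidableEq J] (Φ : Gau S J) {C : LC S} {A : κ → Part S} {X : ∀ k, Setoid (S.F k).Ω}

omit [DecidableEq J] in
theorem ff_kn [DecidableEq J] (y : ∀ k, FF (Lab.ofZ X k) J) (k : ℕ) : Kn1 (X k) ((y k).g) := fun ω ω' a b c e =>
  ((y k).meas ω ω' a b c e).1

/-- an optimal form over a partition of the space, with equal second form -/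
theorem ff_opt {y : ∀ k, FF (Lab.ofZ X k) J} (h : Φ.OptfK C A fun k => (y k).fd) :
    Φ.OptfK C A fun k => zFD (X k) ((y k).g) := by
  refine ⟨⟨fun η hη => ?_, h.1.2⟩, fun z hz => (h.2 z hz).trans (le_of_eq (ul_congr (Eventually.of_forall fun k => ?_)))⟩
  · filter_upwards [h.1.1 η hη] with k a
    obtain ⟨a1, a2, a3, -⟩ := a
    have eg : (zFD (X k) ((y k).g)).g = (y k).g := zFD_g (ff_kn y k)
    have eg' : (zFD (X k) ((y k).g)).g' = (y k).g := zFD_g (ff_kn y k)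
    refine ⟨a1, fun ω hω => ?_, ?_, ?_⟩
    · rw [eg, eg']
      exact ⟨(a2 ω hω).1, (a2 ω hω).1⟩
    · rw [eg]
      exact a3
    · rw [eg']
      exact a3
  · show ((y k).fd).sc / _ = (zFD (X k) ((y k).g)).sc / _
    rw [zFD_sc (ff_kn y k)]
    rfl

end

/-! ### K-labels of a pair -/

variable {E : ℕ → ℕ} {ι : Type} {s : MSys S M E ι} {R : Rsl S} {c : ℝ}

/-- `X` carries optimal forms of all degrees, over K-labels of the window `c` -/
def KCar (s : MSys S M E ι) (R : Rsl S) (c : ℝ) (l : Lab S) : Prop :=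
  ∀ D, ∃ x : ∀ k, FD (S.F k) (Mon M D), (∀ k, (x k).l = l k) ∧ KOp s R D c x

theorem kCar_iff {l : Lab S} : KCar s R c l ↔ Car s R (fun k => fc (R k)) c l := by
  have e1 : cndR s R c = Pool.Agent.Helper52.GF.scw s (fun k => fc (R k)) c :=
    (cndR_eq s R c).trans (cnA_eq s (fun k => fc (R k)) c)
  constructor
  · intro h D
    obtain ⟨x, a, b⟩ := h D
    refine ⟨x, a, ?_⟩
    have b' : (gaq s.Q D).OptfK (KZ R) (cndR s R c) x := b
    rw [e1] at b'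
    exact b'
  · intro h D
    obtain ⟨x, a, b⟩ := h D
    refine ⟨x, a, ?_⟩
    show (gaq s.Q D).OptfK (KZ R) (cndR s R c) x
    rw [e1]
    exact b

/-- the form over a literal carrier -/
theorem KCar.zfd {X : Rsl S} (h : KCar s R c (Lab.ofZ X)) (D : ℕ) : ∃ G : ∀ k, (S.F k).Ω → Matrix (Mon M D) (Mon M D) ℝ,
    (∀ k, Kn1 (X k) (G k)) ∧ KOp s R D c (fun k => zFD (X k) (G k)) := by
  obtain ⟨x, hx, ho⟩ := h D
  obtain ⟨y, rfl⟩ := exists_ff hx
  exact ⟨fun k => (y k).g, fun k => ff_kn y k, ff_opt (gaq s.Q D) ho⟩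

theorem KCar.klb {l : Lab S} (h : KCar s R c l) : KLb s R c l := (kCar_iff.1 h).dmR

theorem SmR.kCar [Finite ι] {X W : Rsl S} (h : SmR R X W) (hX : KCar s R c (Lab.ofZ X)) : KCar s R c (Lab.ofZ W) := by
  intro D
  obtain ⟨G, g1, g2⟩ := hX.zfd D
  exact ⟨fun k => zFD (W k) (G k), fun _ => rfl, h.opt (gaq s.Q D) (Eventually.of_forall g1) g2⟩

/-- **EVERY LITERAL CARRIER HAS A FRAME** with the exponents of the frame of any K-label, up to a small refinement -/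
theorem car_frm [Finite ι] (hP : Pt s R) {X : Rsl S} (hX : ∀ᶠ k in UF, R k ⊓ (S.F k).Z ≤ X k)
    (hcar : KCar s R c (Lab.ofZ X)) {l : Lab S} {La : Fin M → ℝ} (f : Frm s.Q l La) (hl : KLb s R c l)
    (h0 : ∀ i, 0 ≤ La i) (h1 : ∀ i, La i ≤ 1) {d : ℕ} (hd : ∀ k ω j, (f.P k ω j).totalDegree ≤ d) :
    ∃ (W : Rsl S) (g : Frm s.Q (Lab.ofZ W) La), (∀ k ω j, (g.P k ω j).totalDegree ≤ d) ∧ SmR R X W ∧
      KCar s R c (Lab.ofZ W) := by
  obtain ⟨G, g1, g2⟩ := hcar.zfd ((d + 1) ^ M)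
  obtain ⟨W, g, a, b⟩ := frm_small (A := cndR s R c) hP hX (Eventually.of_forall g1) g2 f hl.1 hl.2 h0 h1 hd le_rfl
  exact ⟨W, g, a, b, b.kCar hcar⟩

/-- the same for the exponents `w_j c`, `w >= 1` -/
theorem car_frm_w [Finite ι] (hP : Pt s R) {X : Rsl S} (hX : ∀ᶠ k in UF, R k ⊓ (S.F k).Z ≤ X k)
    (hcar : KCar s R c (Lab.ofZ X)) {l : Lab S} {w : Fin M → ℝ} {e : ℝ} (he : 0 < e) (hw : ∀ i, 1 ≤ w i)
    (hwe : ∀ i, w i * e ≤ 1) (f : Frm s.Q l fun j => w j * e) (hl : KLb s R c l) :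
    ∃ (W : Rsl S) (_ : Frm s.Q (Lab.ofZ W) fun j => w j * e), SmR R X W ∧ KCar s R c (Lab.ofZ W) := by
  obtain ⟨W, g, -, a, b⟩ := car_frm hP hX hcar f hl (fun i => mul_nonneg (zero_le_one.trans (hw i)) he.le) hwe
    (d := ⌈∑ i, w i⌉₊) (fun k ω j => f.deg he hw (fun i => Finset.single_le_sum (f := w)
      (fun i _ => zero_le_one.trans (hw i)) (Finset.mem_univ i)) k ω j)
  exact ⟨W, g, a, b⟩

end

end Pool.Agent.Helper48.ROK
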