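import Pool.Agent.Helper48.ROK.Att
import Pool.Agent.Helper48.ROK.Fmc
import Pool.Agent.Helper29.MX.St2
import Pool.Agent.Helper52.MW.Ime
import Pool.Agent.Helper99.MX.Frk

/-! LEAST CARRIERS FROM THE NUMBERS: if the numbers of all prefixes are linear on all events of all extensions, least
carriers exist at all windows, on all events of all extensions. -/

set_option autoImplicit false

namespace Pool.Agent.Helper48.ROK

open Finset Filter Topology Matrix MvPolynomial Pool.Agent.Helper69.RK Pool.Agent.Helper31.EC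
open Pool.Agent.Helper31.EC.Sp
open Pool.Agent.Helper40.EL Pool.Agent.Helper89.LX Pool.Agent.Helper3.LF Pool.Agent.Helper84.MT
open Pool.Agent.Helper36.AM (Frm STu)
open Pool.Agent.Helper87.NSL (KnS cndR)
open Pool.Agent.Helper29.MX

noncomputable section

variable {S T : Sp} {N : ℕ} {E : ℕ → ℕ} {ι : Type}

/-- the frame with the exponents `0` -/
def frm_zero (Q : S.VV N) (l : Lab S) {La : Fin N → ℝ} (hLa : ∀ i, La i = 0) : Frm Q l La where
  X := l.pj.vv Q
  P := fun _ _ _ => 0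
  tri := fun k ω j i hi => by
    rw [vars_0] at hi
    exact absurd hi (Finset.notMem_empty i)
  red := fun k ω j a ha => by
    rw [support_zero] at ha
    exact absurd ha (Finset.notMem_empty a)
  fn := Eventually.of_forall fun k ω ω' _ _ _ _ => rfl
  bd := ⟨fun _ => 1, S.Sub_const zero_le_one, Eventually.of_forall fun k ω _ j a => by
    rw [coeff_zero, abs_zero]
    exact zero_le_one⟩
  pt := ⟨fun _ => 1, S.Sub_const zero_le_one, Eventually.of_forall fun k ω _ j => by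
    rw [map_zero, zero_add, hLa, S.dl_zero, one_mul, sub_self, abs_zero, one_mul]
    exact (S.dl_pos _ _).le⟩

/-- the least carrier of the window `0` -/
theorem mc_zero (s : MSys S N E ι) (R : Rsl S) (w : Fin N → ℝ) : Mc s R w 0 (fun _ => ⊤) where
  lit := Eventually.of_forall fun _ => le_top
  kl := by
    have h1 : ∀ (k : ℕ) (B : FL (S.F k)), (fc (⊤ : Setoid (S.F k).Ω) : FL (S.F k)) ≤ B := by
      intro k B
      induction B using fc_ind with
      | _ Y => exact fc_mono le_top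
    refine ⟨(Lab.ofZ_DMf _).mpr fun i => PLe_of_ev (Eventually.of_forall fun k => h1 k _), ?_⟩
    exact Pool.Agent.Helper49.KL.kz_ofZ (Eventually.of_forall fun _ => le_top)
  fr := ⟨frm_zero s.Q _ fun i => mul_zero _⟩
  min := by
    intro l _ _
    have h1 : ∀ (F : FSp) (B : FL F), (fc (⊤ : Setoid F.Ω) : FL F) ≤ B := by
      intro F B
      induction B using fc_ind with
      | _ Y => exact fc_mono le_top
    have h2 : (fun k => h ((l k).p.map (fc (⊤ : Setoid (S.F k).Ω))) (l k).v) = fun _ => 0 := by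
      funext k
      apply h_zero
      have h3 : (l k).p.map (fc (⊤ : Setoid (S.F k).Ω)) = fc (⊤ : Setoid (l k).T.Ω) := by
        show fc (Setoid.comap (l k).p.π ⊤) = _
        congr 1
      rw [h3]
      exact h1 _ _
    rw [h2]
    exact Nul_zero S

/-- every K-label with a frame carries optimal forms, if the total number is exact -/
theorem opt_of_frm [Finite ι] {s : MSys S N E ι} {R : Rsl S} {w : Fin N → ℝ} {c : ℝ} (hc : 0 < c)
    (hw : ∀ i, 1 ≤ w i) (hwc : ∀ i, w i * c < 1) (hT : volKO s R c = N - (∑ i, w i) * c) {d : ℕ}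
    {l' : Lab S} (f' : Frm s.Q l' fun j => w j * c) (hdg : ∀ k ω j, (f'.P k ω j).totalDegree ≤ d)
    (hl' : KLb s R c l') (D : ℕ) :
    (gaq s.Q D).OptfK (LC.kz fun k => fc (R k)) (cndR s R c) (Pool.Agent.Helper26.BXD.bfm f' D d) := by
  have h0 : ∀ j, 0 ≤ w j * c := fun j => mul_nonneg (zero_le_one.trans (hw j)) hc.le
  have hv : (N : ℝ) - ∑ j, w j * c ≤ Pool.Agent.Helper7.RD.volCO (LC.kz fun k => fc (R k)) (cndR s R c) s.Q := by
    have e1 : Pool.Agent.Helper7.RD.volCO (LC.kz fun k => fc (R k)) (cndR s R c) s.Q = volKO s R c :=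
      (volKO_eq s R c).symm
    rw [e1, hT, Finset.sum_mul]
  exact Pool.Agent.Helper99.MX.frm_opt f' hdg h0 hwc hl'.1 hl'.2 hv D

/-- minimal carriers are known to labels which carry the form of the box -/
theorem minC_bfm [Finite ι] {s : MSys S N E ι} {R : Rsl S} {c : ℝ} {D d : ℕ} {X : Rsl S}
    (hX : Pool.Agent.Helper95.VIS.MinC (gaq s.Q D) R (cndR s R c) X) {La : Fin N → ℝ} {l' : Lab S} (f' : Frm s.Q l' La)
    (ho : (gaq s.Q D).OptfK (LC.kz fun k => fc (R k)) (cndR s R c) (Pool.Agent.Helper26.BXD.bfm f' D d)) :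
    Nul S fun k => h ((l' k).p.map (fc (X k))) (l' k).v := by
  have h1 := hX.min (gaq s.Q D) ho
  exact h1

/-- **LEAST CARRIERS EXIST**, if the total number is exact and one K-label has a frame -/
theorem mc_of_frm [Finite ι] {s : MSys S N E ι} {R : Rsl S} {w : Fin N → ℝ} {c : ℝ} (hP : Pt s R) (hc : 0 < c)
    (hw : ∀ i, 1 ≤ w i) (hwc : ∀ i, w i * c < 1) (hT : volKO s R c = N - (∑ i, w i) * c) {l : Lab S}
    (hl : KLb s R c l) (f : Frm s.Q l fun j => w j * c) : ∃ X, Mc s R w c X := by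
  obtain ⟨d, hd⟩ : ∃ d : ℕ, d = ⌈∑ i, w i⌉₊ := ⟨_, rfl⟩
  have hdg : ∀ (l' : Lab S) (f' : Frm s.Q l' fun j => w j * c) k ω j, (f'.P k ω j).totalDegree ≤ d := by
    intro l' f' k ω j
    rw [hd]
    exact f'.deg hc hw (fun i => Finset.single_le_sum (f := w) (fun i _ => zero_le_one.trans (hw i))
      (Finset.mem_univ i)) k ω j
  have h0 : ∀ j, 0 ≤ w j * c := fun j => mul_nonneg (zero_le_one.trans (hw j)) hc.le
  obtain ⟨D, hD⟩ : ∃ D : ℕ, D = (d + 1) ^ N := ⟨_, rfl⟩
  obtain ⟨X, hX⟩ := Pool.Agent.Helper95.VIS.exists_minC (gaq s.Q D) (cndR s R c) R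
  obtain ⟨G, g1, g2, -⟩ := hX.car
  obtain ⟨W, g, -, hW⟩ := frm_small (A := cndR s R c) (Q := s.Q) hP hX.lit g1 g2 f hl.1 hl.2 h0
    (fun j => (hwc j).le) (hdg l f) hD.ge
  have hWC := hW.minC hX
  have hkl : KLb s R c (Lab.ofZ W) := ⟨hW.dmf hX.dmf, Pool.Agent.Helper49.KL.kz_ofZ hW.lit⟩
  exact ⟨W, hW.lit, hkl, ⟨g⟩, fun l' hl' hf' => hf'.elim fun f' =>
    minC_bfm hWC f' (opt_of_frm hc hw hwc hT f' (hdg l' f') hl' D)⟩

theorem wsm_all (w : Fin N → ℝ) : wsm w N = ∑ i, w i := Finset.sum_congr rfl fun i _ => if_pos i.2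

/-- the number of the whole point -/
theorem Num.tot {w : Fin N → ℝ} {s : MSys S N E ι} {R : Rsl S} (h : Num w s R) : Tot w s R := by
  intro c h0 h1
  have h2 := h c h0 h1 N le_rfl
  rw [wsm_all] at h2
  rw [← h2, volKO_eq]
  rfl

/-- **LEAST CARRIERS FROM THE NUMBERS** -/
theorem car_of_num [Finite ι] {g : ℕ} {s : MSys S (N + 1) (lin g) ι} {R : Rsl S}
    (hst : ∀ m, m < N + 1 → STu m) (hP : Pt s R) {w : Fin (N + 1) → ℝ} (hw : ∀ i, 1 ≤ w i) (hN : Num w s R)
    (hNX : AllE (fun _ t R' => Num w t R') S s R) : Car w s R := by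
  intro c h0 hwc
  rcases h0.eq_or_lt with h00 | hc
  · subst h00
    exact ⟨_, mc_zero s R w⟩
  · have hc1 : c < 1 := by
      have h1 := hwc 0
      have h2 := hw 0
      nlinarith
    have hle : ∀ c' : ℝ, 0 < c' → c' ≤ c → ∀ i, w i * c' < 1 := fun c' _ h2 i =>
      (mul_le_mul_of_nonneg_left h2 (zero_le_one.trans (hw i))).trans_lt (hwc i)
    obtain ⟨Z, f, z1, z2, -⟩ := frames_num hst hP hw hc hwc hc1
      (fun c' a b j hj => hN c' a.le (hle c' a b) j hj)
      (fun c' a b T p A hA j hj => hNX T p A hA c' a.le (hle c' a b) j hj)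
    exact mc_of_frm hP hc hw hwc (Num.tot hN c hc.le hwc) z2 f

/-- least carriers on all events of all extensions -/
theorem carE_of_num [Finite ι] {g : ℕ} {s : MSys S (N + 1) (lin g) ι} {R : Rsl S}
    (hst : ∀ m, m < N + 1 → STu m) (hP : Pt s R) {w : Fin (N + 1) → ℝ} (hw : ∀ i, 1 ≤ w i)
    (hN : AllE (fun _ t R' => Num w t R') S s R) : AllE (fun _ t R' => Pool.Agent.Helper29.MX.Car w t R') S s R := by
  intro T p A hA
  exact car_of_num (S := Sp.im p A) (s := s.im p A hA) hst (pt_im hP p A hA) hw (hN T p A hA)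
    (Pool.Agent.Helper52.MW.AllE_im hN p A hA)

/-! ### the row CARJ -/

theorem pt_trn {s : MSys S N E ι} {R : Rsl S} (h : Pt s R) (e : ℝ) (he : 0 < e) (h1 : e ≤ 1) :
    Pt (s.trn e he h1) R := by
  have h' : KnS R s.Q.v := h
  show KnS (S := S.chg S.tr e he) R s.Q.v
  filter_upwards [h'] with k hk ω ω' a b z r
  exact hk ω ω' a b z.2 r

theorem wof_eq (M : ℕ) (a : ℕ → ℝ) (i : Fin (M + 1)) : wof M a i = a (i.val + 1) - a i.val := rfl

theorem wof_ge {M : ℕ} {a : ℕ → ℝ} {W : ℝ} (h : Pool.Agent.Helper94.SEL.Spd M a W) (i : Fin (M + 1)) :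
    1 ≤ wof M a i := by
  rw [wof_eq]
  have h1 := h.step i.val (Nat.le_of_lt_succ i.2)
  linarith

/-- **ROW CARJ** from the numbers of the truncations -/
theorem carj_of {M : ℕ} (h : NUMJ M) : CARJ M := by
  intro A C v hctx m g r e0 P' W a hW hS hM
  obtain ⟨e1, ρ', h1, h2, h3⟩ := h A C v hctx m g r e0 P' W a hW hS hM
  refine ⟨e1, ρ', h1, h2, fun S s R hL e he h4 h5 => ?_⟩
  exact carE_of_num (s := s.trn e he h4) hctx.st (pt_trn hL.ke.bk.cl.2.1 e he h4) (wof_ge hS) (h3 S s R hL e he h4 h5)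

end

end Pool.Agent.Helper48.ROK
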