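import Pool.Agent.Helper89.RAK.Volz
import Pool.Agent.Helper89.RAK.Zom
import Pool.Agent.Helper26.MT.Zo
import Pool.Agent.Helper8.KL.Kl
import Pool.Agent.Helper3.KL.Form
import Pool.Agent.Helper48.ROW.Typ

/-! ROWS OF K-LABELS (1): events of the space of a K-label which are known to the label and to the resolution; typical
exponents of a form which is optimal for the K-labels, from the volume of the form and the numbers on events. No zoom. -/

set_option autoImplicit false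

namespace Pool.Agent.Helper48.ROK

open Finset Filter Topology Matrix Pool.Agent.Helper69.RK Pool.Agent.Helper31.EC Pool.Agent.Helper31.EC.Sp
open Pool.Agent.Helper40.EL Pool.Agent.Helper89.LX Pool.Agent.Helper3.LF Pool.Agent.Helper84.MT Pool.Agent.Helper89.RAT
open Pool.Agent.Helper89.RAK (Lit KC Dmz Slf.dmz slf_K volz_P0)
open Pool.Agent.Helper14.MC (gx vx vol_eq vx_UB)

noncomputable section

/-- K-LABELS ON EVENTS of the space of the label, which are known to the label and to the resolution -/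
theorem im_kz {F : FSp} (l : FLab F) (E : l.T.Ω → Prop) (R : Setoid F.Ω) (h0 : l.leak (fc R) = 0)
    (hE : ∀ ω ω', l.T.μ ω ≠ 0 → l.T.μ ω' ≠ 0 → l.V ω ω' → l.T.Z ω ω' → R (l.p.π ω) (l.p.π ω') → (E ω ↔ E ω')) :
    (l.im E).leak (fc (F := FSp.im l.p E) R) = 0 := by
  have e1 : (l.im E).leak (fc (F := FSp.im l.p E) R) =
      I (l.T.rmap E l.v) (l.T.rmap E l.p.top) (l.T.rmap E (l.p.map (fc R))) := by
    unfold FLab.leak
    rw [FLab.im_v, FLab.im_top]
    have h1 : (l.im E).p.map (FSp.imap l.p E (fc R)) = l.T.rmap E (l.p.map (fc R)) := FSp.imp_imap l.p E (fc R)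
    rw [← h1]
    rfl
  rw [e1, I_comm]
  refine FSp.I_rest_zero _ _ _ _ _ ?_ ?_
  · have e2 : l.v ⊔ l.p.map (fc R) = fc (l.V ⊓ Setoid.comap l.p.π R) := rfl
    rw [e2]
    exact fc_le fun ω ω' a b c d => propext (hE ω ω' a b d.1 c d.2)
  · rw [I_comm]
    exact h0

variable {S : Sp} {M N D : ℕ} {κ : Type}

theorem im_kz_ev {R : ∀ k, Setoid (S.F k).Ω} {l : Lab S} (E : ∀ k, (l.sp.F k).Ω → Prop) (h0 : (KC R).ev l)
    (hE : ∀ k (ω ω' : (l k).T.Ω), (l k).T.μ ω ≠ 0 → (l k).T.μ ω' ≠ 0 → (l k).V ω ω' → (l k).T.Z ω ω' →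
      R k ((l k).p.π ω) ((l k).p.π ω') → (E k ω ↔ E k ω')) :
    (LC.kz (S := Sp.im l.pj E) fun k => fc (R k)).ev (l.im E) := by
  filter_upwards [h0] with k hk
  exact im_kz (l k) (E k) (R k) hk (hE k)

/-- derivative domination on events -/
theorem dmz_re {Q : S.VV M} {z : Fin M} {x : ∀ k, FD (S.F k) (Mon M D)} (h : Dmz Q z x)
    (B : ∀ k, ((lbS x).sp.F k).Ω → Prop) (hB : 0 < ul ((lbS x).sp.pr B)) : Dmz (Q.im (lbS x).pj B) z (reS x B) := by
  intro e he
  have h1 := h e he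
  set r := ul ((lbS x).sp.pr B) with hr
  have h2 := h1.div_const (r / 2)
  rw [zero_div] at h2
  refine tendsto_of_tendsto_of_tendsto_of_le_of_le' tendsto_const_nhds h2
    (Eventually.of_forall fun k => FSp.pb_nonneg _ _) ?_
  filter_upwards [pr_half' (S := (lbS x).sp) hB] with k hk
  exact pb_rest_le (x k).l.T (B k) (fun ω => ¬ ∀ v, qf ((x k).g ω) (Pool.Agent.Helper48.NS.Tm z *ᵥ v) ≤
      2 ^ (e * (S.F k).n) * Jz Q z k ((x k).l.p.π ω) ((x k).g ω) * qf ((x k).g ω) v) (r / 2) (by positivity) hk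

/-- an event is typical if the complement is not of positive probability -/
theorem ul_one_of {E : ∀ k, (S.F k).Ω → Prop} (h : ¬ 0 < ul (S.pr fun k ω => ¬ E k ω)) : ul (S.pr E) = 1 := by
  rw [ul_not] at h
  have := ul_pr_le_one E
  linarith [not_lt.1 h]

/-- the volume on typical events -/
theorem vol_re_one [Finite κ] {A : κ → Part S} {Q : S.VV M} {x : ∀ k, FD (S.F k) (Mon M D)}
    (hx : (gaq Q D).Adf A x) (B : ∀ k, ((lbS x).sp.F k).Ω → Prop) (hB : 0 < ul ((lbS x).sp.pr B))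
    (h1 : ul ((lbS x).sp.pr B) = 1) : vol (Q.im (lbS x).pj B) D (reS x B) = vol Q D x := by
  have tE : Tendsto (fun k => (x k).l.T.pb (B k)) UF (𝓝 1) := by
    rw [← h1]
    exact ul_tendsto (UB_pr (S := (lbS x).sp) B)
  have a1 := Gau.Adf.re hx B hB
  rw [← gaq_im] at a1
  have u1 := ul_tendsto (vx_UB a1)
  obtain ⟨C, hC, hb⟩ := Pool.Agent.Helper84.MT.gx_bd hx
  -- the part of the complement
  have t2 : Tendsto (fun k => (1 - (x k).l.T.pb (B k)) *
      vx (Q.im (lbS x).pj fun k ω => ¬ B k ω) (reS x fun k ω => ¬ B k ω) k) UF (𝓝 0) := by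
    have t3 : Tendsto (fun k => (1 - (x k).l.T.pb (B k)) * C) UF (𝓝 0) := by
      have := (tE.const_sub 1).mul_const C
      rwa [sub_self, zero_mul] at this
    refine tendsto_of_tendsto_of_tendsto_of_le_of_le' tendsto_const_nhds t3 ?_ ?_
    · filter_upwards [hb] with k hk
      refine mul_nonneg (sub_nonneg.mpr ((x k).l.T.pb_le_one (B k))) ?_
      refine Finset.sum_nonneg fun ω _ => ?_
      by_cases hω : ((x k).l.T.rest (fun ω => ¬ B k ω)).μ ω = 0
      · exact le_of_eq (by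
          show 0 = ((x k).l.T.rest (fun ω => ¬ B k ω)).μ ω * _
          rw [hω, zero_mul])
      · exact mul_nonneg (((x k).l.T.rest (fun ω => ¬ B k ω)).nn ω)
          (hk ω ((x k).l.T.rest_supp (fun ω => ¬ B k ω) ω hω).1).1
    · filter_upwards [hb] with k hk
      refine mul_le_mul_of_nonneg_left ?_ (sub_nonneg.mpr ((x k).l.T.pb_le_one (B k)))
      have e1 : ∑ ω, ((x k).l.T.rest (fun ω => ¬ B k ω)).μ ω = 1 := ((x k).l.T.rest (fun ω => ¬ B k ω)).ms
      have e2 : C = ∑ ω, ((x k).l.T.rest (fun ω => ¬ B k ω)).μ ω * C := by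
        rw [← Finset.sum_mul, e1, one_mul]
      rw [e2]
      refine Finset.sum_le_sum fun ω _ => ?_
      by_cases hω : ((x k).l.T.rest (fun ω => ¬ B k ω)).μ ω = 0
      · exact le_of_eq (by
          show ((x k).l.T.rest (fun ω => ¬ B k ω)).μ ω * _ = ((x k).l.T.rest (fun ω => ¬ B k ω)).μ ω * _
          rw [hω, zero_mul, zero_mul])
      · exact mul_le_mul_of_nonneg_left (hk ω ((x k).l.T.rest_supp (fun ω => ¬ B k ω) ω hω).1).2
          (((x k).l.T.rest (fun ω => ¬ B k ω)).nn ω)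
  have t := (tE.mul u1).add t2
  rw [one_mul, add_zero] at t
  rw [vol_eq, vol_eq]
  have e1 : vx Q x = fun k => (x k).l.T.pb (B k) * vx (Q.im (lbS x).pj B) (reS x B) k +
      (1 - (x k).l.T.pb (B k)) * vx (Q.im (lbS x).pj fun k ω => ¬ B k ω) (reS x fun k ω => ¬ B k ω) k :=
    funext fun k => reS_vx Q x B k
  rw [e1, ul_eq t]

/-- THE VOLUME ON EVENTS which are known to the label and to the resolution: if the volume of the form is at most `v` and
the volumes of all K-admissible forms on all events are at least `v`, then the volume on every event is at most `v` -/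
theorem vol_ev_le [Finite κ] {A : κ → Part S} {Q : S.VV M} {R : ∀ k, Setoid (S.F k).Ω}
    {x : ∀ k, FD (S.F k) (Mon M D)} (hx : (gaq Q D).AdfK (KC R) A x) {v : ℝ} (hv : vol Q D x ≤ v)
    (hlow : ∀ (T : Sp) (p : Pj T S) (E : ∀ k, (T.F k).Ω → Prop) (_ : 0 < ul (T.pr E))
      (y : ∀ k, FD ((Sp.im p E).F k) (Mon M D)), (gaq (Q.im p E) D).AdfK (LC.kz (S := Sp.im p E) fun k => fc (R k))
        (fun i => (A i).im p E) y → v ≤ vol (Q.im p E) D y)
    (B : ∀ k, ((lbS x).sp.F k).Ω → Prop) (hB : 0 < ul ((lbS x).sp.pr B))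
    (hE : ∀ k (ω ω' : (x k).l.T.Ω), (x k).l.T.μ ω ≠ 0 → (x k).l.T.μ ω' ≠ 0 → (x k).l.V ω ω' → (x k).l.T.Z ω ω' →
      R k ((x k).l.p.π ω) ((x k).l.p.π ω') → (B k ω ↔ B k ω')) :
    vol (Q.im (lbS x).pj B) D (reS x B) ≤ v := by
  by_cases h1 : 0 < ul ((lbS x).sp.pr fun k ω => ¬ B k ω)
  · have h2 := vol_re hx.1 B hB h1
    have h3 := hlow _ (lbS x).pj (fun k ω => ¬ B k ω) h1 (reS x fun k ω => ¬ B k ω) ⟨by
      rw [gaq_im]
      exact Gau.Adf.re hx.1 _ h1, im_kz_ev (l := lbS x) (fun k ω => ¬ B k ω) hx.2 fun k ω ω' a b c d r =>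
        not_congr (hE k ω ω' a b c d r)⟩
    have h4 : ul ((lbS x).sp.pr B) ≤ 1 := ul_pr_le_one B
    have h5 : (1 - ul ((lbS x).sp.pr B)) * v ≤
        (1 - ul ((lbS x).sp.pr B)) * vol (Q.im (lbS x).pj fun k ω => ¬ B k ω) D (reS x fun k ω => ¬ B k ω) :=
      mul_le_mul_of_nonneg_left h3 (by linarith)
    have h6 : ul ((lbS x).sp.pr B) * vol (Q.im (lbS x).pj B) D (reS x B) ≤ ul ((lbS x).sp.pr B) * v := by linarith
    exact le_of_mul_le_mul_left h6 hB
  · rw [vol_re_one hx.1 B hB (ul_one_of (S := (lbS x).sp) h1)]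
    exact hv

/-- **TYPICAL EXPONENTS**: `z` a coordinate, `P` the other coordinates; the digits of `P` over K-labels on events are at
least `a`, the volume of the optimal form is at most `a + 1 - θ` and the volumes of K-admissible forms on events are at
least `a + 1 - θ` -/
theorem typ_low [Finite κ] {A : κ → Part S} {Q : S.VV M} {R : ∀ k, Setoid (S.F k).Ω} (hR : Lit R Q) (hD : 1 ≤ D)
    {x : ∀ k, FD (S.F k) (Mon M D)} (hx : (gaq Q D).OptfK (KC R) A x) (z : Fin M) (P : S.VV N) (f : Fin N → Fin M)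
    (hf : ∀ j, f j ≠ z) (hP : ∀ k ω j, P.v k ω j = Q.v k ω (f j)) {a θ : ℝ}
    (hnum : ∀ (T : Sp) (p : Pj T S) (E : ∀ k, (T.F k).Ω → Prop) (_ : 0 < ul (T.pr E)) (l : Lab (Sp.im p E)),
      l.DMf (fun i => (A i).im p E) → (LC.kz (S := Sp.im p E) fun k => fc (R k)).ev l →
        a ≤ H (up1 l ((P.im p E).dg 1)))
    (hv : vol Q D x ≤ a + 1 - θ)
    (hlow : ∀ (T : Sp) (p : Pj T S) (E : ∀ k, (T.F k).Ω → Prop) (_ : 0 < ul (T.pr E))
      (y : ∀ k, FD ((Sp.im p E).F k) (Mon M D)), (gaq (Q.im p E) D).AdfK (LC.kz (S := Sp.im p E) fun k => fc (R k))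
        (fun i => (A i).im p E) y → a + 1 - θ ≤ vol (Q.im p E) D y) (e : ℝ) (he : 0 < e) :
    Sp.Typ (S := (lb x).sp) fun k (ω : (x k).l.T.Ω) => θ - e ≤ xz Q z k ((x k).l.p.π ω) ((x k).g ω) := by
  set B : ∀ k, ((lbS x).sp.F k).Ω → Prop := fun k (ω : (x k).l.T.Ω) =>
    ¬ θ - e ≤ xz Q z k ((x k).l.p.π ω) ((x k).g ω) with hBdef
  have hU : UB ((lbS x).sp.pr B) := UB_pr (S := (lbS x).sp) B
  have hR1 : ∀ k, R k ≤ Setoid.ker (Q.cellv 1 k) := by
    intro k ω ω' r
    have h1 : Q.v k ω = Q.v k ω' := hR k r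
    show Q.cellv 1 k ω = Q.cellv 1 k ω'
    funext i
    show ⌊Q.v k ω i / S.dl 1 k⌋ = ⌊Q.v k ω' i / S.dl 1 k⌋
    rw [h1]
  have hBk : ∀ k (ω ω' : (x k).l.T.Ω), (x k).l.T.μ ω ≠ 0 → (x k).l.T.μ ω' ≠ 0 → (x k).l.V ω ω' → (x k).l.T.Z ω ω' →
      R k ((x k).l.p.π ω) ((x k).l.p.π ω') → (B k ω ↔ B k ω') := by
    intro k ω ω' a b c d r
    have h1 : Q.v k ((x k).l.p.π ω) = Q.v k ((x k).l.p.π ω') := hR k r
    have h2 := ((x k).meas ω ω' a b c d).1
    have h3 : xz Q z k ((x k).l.p.π ω) ((x k).g ω) = xz Q z k ((x k).l.p.π ω') ((x k).g ω') := by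
      unfold xz Jz
      rw [h1, h2]
    show (¬ _) ↔ (¬ _)
    rw [h3]
  have h0 : ul ((lbS x).sp.pr B) ≤ 0 := by
    by_contra hc
    have hpos : 0 < ul ((lbS x).sp.pr B) := not_le.1 hc
    have hadm : (gaq (Q.im (lbS x).pj B) D).Adf (fun i => (A i).im (lbS x).pj B) (reS x B) := by
      rw [gaq_im]
      exact Gau.Adf.re hx.1.1 B hpos
    have hkz := im_kz_ev (l := lbS x) B hx.1.2 hBk
    have hdm := dmz_re ((slf_K (gaq Q D) hx).dmz hx.1.1 hR1 z) B hpos
    have k1 := volz_P0 hD hadm z hdm (P.im (lbS x).pj B) f hf hP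
    have k2 := hnum _ (lbS x).pj B hpos (lb (reS x B)) (Gau.Adf.dm _ hadm) hkz
    have k3 := vol_ev_le hx.1 hv hlow B hpos hBk
    have k4 : zx (Q.im (lbS x).pj B) z (reS x B) ≤ θ - e := by
      apply ul_le_const (zv_UB z hadm)
      filter_upwards [pr_half' (S := (lbS x).sp) hpos] with k hk
      have hpb : (x k).l.T.pb (B k) ≠ 0 := by
        have h5 : 0 < ul ((lbS x).sp.pr B) / 2 := by linarith
        exact (lt_of_lt_of_le h5 hk).ne'
      show ∑ ω, ((x k).l.T.rest (B k)).μ ω * xz Q z k ((x k).l.p.π ω) ((x k).g ω) ≤ θ - e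
      have e1 : ∑ ω, ((x k).l.T.rest (B k)).μ ω = 1 := ((x k).l.T.rest (B k)).ms
      have e2 : θ - e = ∑ ω, ((x k).l.T.rest (B k)).μ ω * (θ - e) := by
        rw [← Finset.sum_mul, e1, one_mul]
      rw [e2]
      refine Finset.sum_le_sum fun ω _ => ?_
      by_cases hω : ((x k).l.T.rest (B k)).μ ω = 0
      · rw [hω, zero_mul, zero_mul]
      · have h6 := ((x k).l.T.rest_supp (B k) ω hω).2 hpb
        exact mul_le_mul_of_nonneg_left (not_le.1 h6).le (((x k).l.T.rest (B k)).nn ω)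
    linarith
  have h1 : 0 ≤ ul ((lbS x).sp.pr B) := const_le_ul hU (Eventually.of_forall fun k => (x k).l.T.pb_nonneg _)
  have h2 := ul_tendsto hU
  rw [le_antisymm h0 h1] at h2
  exact h2

end

end Pool.Agent.Helper48.ROK
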