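import Pool.Agent.Helper48.ROK.Numj

/-! THE NUMBERS OF THE TRUNCATIONS of the members of the last class of the first half, all units `e ≤ P.l`. -/

set_option autoImplicit false

namespace Pool.Agent.Helper48.ROK

open Finset Filter Topology Pool.Agent.Helper69.RK Pool.Agent.Helper31.EC Pool.Agent.Helper31.EC.Sp
open Pool.Agent.Helper40.EL Pool.Agent.Helper89.LX Pool.Agent.Helper84.MT
open Pool.Agent.Helper36.AM (STu MCl)
open Pool.Agent.Helper29.MX
open Pool.Agent.Helper94.SEL (LL Spd Par)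

noncomputable section

variable {S : Sp} {M v g r e0 : ℕ}

/-- exact numbers of the member on all events, windows `c < P.l` -/
theorem ll_numS {C : MCl (M + 1)} {P : Par} {W : ℝ} {a : ℕ → ℝ} (hS : Spd M a W) {s : MSys S (M + 1) (lin g) (Fin r)}
    {R : Rsl S} (hL : LL C v g r e0 P a S s R) {T : Sp} (q : Pj T S) (B : ∀ k, (T.F k).Ω → Prop) (hB : 0 < ul (T.pr B))
    {c : ℝ} (h0 : 0 ≤ c) (h2 : c < P.l) : NumS c (wof M a) (s.im q B hB) R := by
  intro j hj
  have h3 := hL.ke.bk.rig T q B hB c h0 h2 j hj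
  rw [hL.num c h0 h2 j hj] at h3
  have h4 : (j : ℝ) - volP (s.im q B hB) R c hj = a j * c := h3
  have h5 := wsm_wof hS.zero j hj
  show volP (s.im q B hB) R c hj = j - wsm (wof M a) j * c
  rw [h5]
  linarith

/-- **EXACT NUMBERS OF THE TRUNCATIONS**, every unit `e ≤ P.l`, on all events of all extensions -/
theorem ll_num (hst : ∀ m, m < M + 1 → STu m) {C : MCl (M + 1)} {P : Par} {W : ℝ} {a : ℕ → ℝ} (hS : Spd M a W)
    {s : MSys S (M + 1) (lin g) (Fin r)} {R : Rsl S} (hL : LL C v g r e0 P a S s R) {e : ℝ} (he : 0 < e) (h1 : e ≤ 1)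
    (hel : e ≤ P.l) : AllE (fun _ t R' => Num (wof M a) t R') (S.chg S.tr e he) (s.trn e he h1) R := by
  have hP : Pt s R := hL.ke.bk.cl.2.1
  have hall : AllE (fun _ t R' => Pt t R' ∧ (∀ c : ℝ, 0 ≤ c → c < P.l → NumS c (wof M a) t R') ∧
      ∀ c : ℝ, 0 ≤ c → c < P.l → AllE (fun _ t' R'' => NumS c (wof M a) t' R'') _ t R') S s R := by
    intro T q B hB
    exact ⟨pt_im hP q B hB, fun c h0 h2 => ll_numS hS hL q B hB h0 h2, fun c h0 h2 =>
      Pool.Agent.Helper52.MW.AllE_im (fun T q B hB => ll_numS hS hL q B hB h0 h2) q B hB⟩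
  exact Pool.Agent.Helper71.VIS.AllE_trn he h1
    (fun S s R h => num_trn hst h.1 (wof_ge hS) h.2.1 h.2.2 he h1 hel) hall

/-- least carriers of the truncations, every unit `e ≤ P.l`, on all events of all extensions -/
theorem ll_car (hst : ∀ m, m < M + 1 → STu m) {C : MCl (M + 1)} {P : Par} {W : ℝ} {a : ℕ → ℝ} (hS : Spd M a W)
    {s : MSys S (M + 1) (lin g) (Fin r)} {R : Rsl S} (hL : LL C v g r e0 P a S s R) {e : ℝ} (he : 0 < e) (h1 : e ≤ 1)
    (hel : e ≤ P.l) : AllE (fun _ t R' => Pool.Agent.Helper29.MX.Car (wof M a) t R') (S.chg S.tr e he)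
      (s.trn e he h1) R :=
  carE_of_num (s := s.trn e he h1) hst (pt_trn hL.ke.bk.cl.2.1 e he h1) (wof_ge hS) (ll_num hst hS hL he h1 hel)

end

end Pool.Agent.Helper48.ROK
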