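import Pool.Agent.Helper48.ROK.Cars
import Pool.Agent.Helper71.VIS.Trk
import Pool.Agent.Helper18.PRM.Frr
import Pool.Agent.Helper18.SRT.Row

/-! THE NUMBERS OF THE TRUNCATIONS (row NUMJ): lower bounds of the volumes from helper71's truncation of K-forms, upper
bounds from the frames of the system (which exist for the windows of the last class), truncated. The total may be more
than one. -/

set_option autoImplicit false

namespace Pool.Agent.Helper48.ROK

open Finset Filter Topology Matrix MvPolynomial Pool.Agent.Helper69.RK Pool.Agent.Helper31.EC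
open Pool.Agent.Helper31.EC.Sp
open Pool.Agent.Helper40.EL Pool.Agent.Helper89.LX Pool.Agent.Helper3.LF Pool.Agent.Helper84.MT
open Pool.Agent.Helper36.AM (Frm STu)
open Pool.Agent.Helper87.NSL (KnS cndR)
open Pool.Agent.Helper7.RD (volC volCO volCO_le)
open Pool.Agent.Helper18.PRM (vcrd scrd cpo coeff_cpo vars_cpo eval_cpo sum_mapDomain)
open Pool.Agent.Helper18.SRT (volCO_step cpo_deg)
open Pool.Agent.Helper71.VIS
open Pool.Agent.Helper52.SL (tnF tnL nul_trn)
open Pool.Agent.Helper29.MX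

noncomputable section

variable {S T : Sp} {M N m d : ℕ} {E : ℕ → ℕ} {ι κ : Type}

/-! ### frames of prefixes -/

section pre
variable {Q : S.VV M} {l : Lab S} {La : Fin M → ℝ} (f : Frm Q l La) (hm : m ≤ M)

theorem pre_vars (k : ℕ) (ω : (l.sp.F k).Ω) (j : Fin m) :
    ∀ i ∈ (f.P k ω (Fin.castLE hm j)).vars, ∃ a, Fin.castLE hm a = i := fun i hi => by
  have h1 : i.val < j.val := f.tri k ω (Fin.castLE hm j) i hi
  exact ⟨⟨i.val, h1.trans j.isLt⟩, rfl⟩

/-- THE FRAME OF THE PREFIX -/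
def frp : Frm (pf Q hm) l (fun j => La (Fin.castLE hm j)) where
  X := vcrd (Fin.castLE hm) f.X
  P := fun k ω j => cpo (Fin.castLE hm) (Fin.castLE_injective hm) (f.P k ω (Fin.castLE hm j))
  tri := by
    intro k ω j i hi
    have h1 := vars_cpo _ (Fin.castLE_injective hm) (pre_vars f hm k ω j) hi
    exact f.tri k ω (Fin.castLE hm j) _ h1
  red := by
    intro k ω j a ha hne
    rw [← sum_mapDomain _ (Fin.castLE_injective hm) La a]
    apply f.red k ω (Fin.castLE hm j)
    · rw [MvPolynomial.mem_support_iff, ← coeff_cpo _ (Fin.castLE_injective hm) (pre_vars f hm k ω j)]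
      exact MvPolynomial.mem_support_iff.mp ha
    · intro hc
      apply hne
      apply Finsupp.mapDomain_injective (Fin.castLE_injective hm)
      rw [hc, Finsupp.mapDomain_zero]
  fn := by
    filter_upwards [f.fn] with k hk ω ω' a b c d
    funext j
    rw [hk ω ω' a b c d]
  bd := by
    obtain ⟨K, hK, hb⟩ := f.bd
    refine ⟨K, hK, ?_⟩
    filter_upwards [hb] with k hk ω hω j a
    rw [coeff_cpo _ (Fin.castLE_injective hm) (pre_vars f hm k ω j)]
    exact hk ω hω (Fin.castLE hm j) _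
  pt := by
    obtain ⟨K, hK, hb⟩ := f.pt
    refine ⟨K, hK, ?_⟩
    filter_upwards [hb] with k hk ω hω j
    have h1 := eval_cpo _ (Fin.castLE_injective hm) (pre_vars f hm k ω j) (fun i => S.dl (La i) k * f.X.v k ω i)
    have h2 := hk ω hω (Fin.castLE hm j)
    rw [← h1] at h2
    exact h2

theorem frp_deg (hd : ∀ k ω j, (f.P k ω j).totalDegree ≤ d) (k : ℕ) (ω : (l.sp.F k).Ω) (j : Fin m) :
    ((frp f hm).P k ω j).totalDegree ≤ d :=
  (cpo_deg (Fin.castLE_injective hm) (pre_vars f hm k ω j)).trans (hd k ω _)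

end pre

/-- THE VOLUMES OF THE PREFIXES ARE BOUNDED BY THE FRAME -/
theorem volCO_frm [Finite κ] {Q : S.VV M} {C : LC S} {A : κ → Part S} {l : Lab S} {La : Fin M → ℝ} (f : Frm Q l La)
    (hl : l.DMf A) (hC : C.ev l) (h0 : ∀ i, 0 ≤ La i) (h1 : ∀ i, La i ≤ 1)
    (hd : ∀ k ω j, (f.P k ω j).totalDegree ≤ d) (m : ℕ) (hm : m ≤ M) :
    volCO C A (pf Q hm) ≤ ∑ i : Fin M, if i.val < m then 1 - La i else 0 := by
  induction m with
  | zero =>
    have h2 : volCO C A (pf Q hm) ≤ ((0 : ℕ) : ℝ) := Pool.Agent.Helper7.RD.volCO_le_M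
    rw [Nat.cast_zero] at h2
    refine h2.trans (le_of_eq (Eq.symm (Finset.sum_eq_zero fun i _ => if_neg (Nat.not_lt_zero _))))
  | succ m ih =>
    have h2 := ih (Nat.le_of_succ_le hm)
    have h3 := volCO_step (C := C) (A := A) (Q := Q) (Fin.castLE hm) (Fin.castLE_injective hm) (Fin.last m) (frp f hm)
      hl hC (fun i => h0 _) (fun i => h1 _) (frp_deg f hm hd)
    have e1 : Fin.castLE hm ∘ (Fin.last m).succAbove = Fin.castLE (Nat.le_of_succ_le hm) := by
      funext i
      show Fin.castLE hm ((Fin.last m).succAbove i) = _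
      rw [Fin.succAbove_last]
      rfl
    rw [e1] at h3
    have e2 : (∑ i : Fin M, if i.val < m + 1 then 1 - La i else 0) =
        (∑ i : Fin M, if i.val < m then 1 - La i else 0) + (1 - La (Fin.castLE hm (Fin.last m))) := by
      have e3 : ∀ i : Fin M, (if i.val < m + 1 then 1 - La i else 0) = (if i.val < m then 1 - La i else 0) +
          if i = Fin.castLE hm (Fin.last m) then 1 - La i else 0 := by
        intro i
        have h5 : i = Fin.castLE hm (Fin.last m) ↔ i.val = m := by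
          rw [Fin.ext_iff]
          rfl
        by_cases h6 : i.val < m
        · rw [if_pos h6, if_pos (by omega), if_neg (fun h => by rw [h5] at h; omega), add_zero]
        · by_cases h7 : i.val = m
          · rw [if_neg h6, if_pos (by omega), if_pos (h5.2 h7), zero_add]
          · rw [if_neg h6, if_neg (by omega), if_neg (fun h => h7 (h5.1 h)), add_zero]
      rw [Finset.sum_congr rfl fun i _ => e3 i, Finset.sum_add_distrib]
      congr 1
      rw [Finset.sum_ite_eq' Finset.univ (Fin.castLE hm (Fin.last m)) fun i => 1 - La i, if_pos (Finset.mem_univ _)]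
    rw [e2]
    have h4 : volCO C A (vcrd (Fin.castLE (Nat.le_of_succ_le hm)) Q) = volCO C A (pf Q (Nat.le_of_succ_le hm)) := rfl
    rw [h4] at h3
    have h5 : volCO C A (pf Q hm) ≤ 1 - La (Fin.castLE hm (Fin.last m)) + volCO C A (pf Q (Nat.le_of_succ_le hm)) := h3
    linarith

/-! ### frames of the truncated point -/

/-- THE FRAME OF THE TRUNCATED POINT -/
def frt {Q : S.VV M} {l : Lab S} {La La' : Fin M → ℝ} {e : ℝ} (he : 0 < e) (h1 : e ≤ 1) (hLa : ∀ j, La' j = e * La j)
    (f : Frm Q l La') : Frm (Q.chg S.tr e he) (tnL e he l) La where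
  X := ⟨f.X.v, by
    obtain ⟨K, hK, hb⟩ := f.X.bd
    exact ⟨K, (sp_Sub _).mpr (chg_sub S.tr e he ((sp_Sub l).mp hK)), hb⟩⟩
  P := f.P
  tri := f.tri
  red := by
    intro k ω j a ha hne
    have h2 := f.red k ω j a ha hne
    have h3 : ∑ i, (a i : ℝ) * La' i = e * ∑ i, (a i : ℝ) * La i := by
      rw [Finset.mul_sum]
      exact Finset.sum_congr rfl fun i _ => by rw [hLa]; ring
    rw [h3, hLa] at h2
    exact lt_of_mul_lt_mul_left h2 he.le
  fn := by
    filter_upwards [f.fn] with k hk ω ω' a b c d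
    exact hk ω ω' a b c d
  bd := by
    obtain ⟨K, hK, hb⟩ := f.bd
    exact ⟨K, chg_sub S.tr e he hK, hb⟩
  pt := by
    obtain ⟨K, hK, hb⟩ := f.pt
    refine ⟨K, chg_sub S.tr e he hK, ?_⟩
    filter_upwards [hb, hK.1] with k hk hK0 ω hω j
    have h2 := hk ω hω j
    have e1 : ∀ i, (S.chg S.tr e he).dl (La i) k = S.dl (La' i) k := fun i => by rw [chg_dl, hLa]
    have e2 : S.dl 1 k ≤ (S.chg S.tr e he).dl 1 k := by
      rw [chg_dl, mul_one]
      exact S.dl_anti h1 k
    show |(Q.chg S.tr e he).v k ((l k).p.π ω) j - (eval (fun i => (S.chg S.tr e he).dl (La i) k * f.X.v k ω i)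
      (f.P k ω j) + (S.chg S.tr e he).dl (La j) k * f.X.v k ω j)| ≤ K k * (S.chg S.tr e he).dl 1 k
    have e3 : (fun i => (S.chg S.tr e he).dl (La i) k * f.X.v k ω i) = fun i => S.dl (La' i) k * f.X.v k ω i :=
      funext fun i => by rw [e1]
    rw [e3, e1 j]
    exact h2.trans (mul_le_mul_of_nonneg_left e2 hK0)

/-! ### the numbers of the truncations -/

theorem wsm_succ {w : Fin N → ℝ} {j : ℕ} (hj : j < N) : wsm w (j + 1) = wsm w j + w ⟨j, hj⟩ := by
  have e3 : ∀ i : Fin N, (if i.val < j + 1 then w i else 0) = (if i.val < j then w i else 0) +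
      if i = ⟨j, hj⟩ then w i else 0 := by
    intro i
    have h5 : i = ⟨j, hj⟩ ↔ i.val = j := by rw [Fin.ext_iff]
    by_cases h6 : i.val < j
    · rw [if_pos h6, if_pos (by omega), if_neg (fun h => by rw [h5] at h; omega), add_zero]
    · by_cases h7 : i.val = j
      · rw [if_neg h6, if_pos (by omega), if_pos (h5.2 h7), zero_add]
      · rw [if_neg h6, if_neg (by omega), if_neg (fun h => h7 (h5.1 h)), add_zero]
  unfold wsm
  rw [Finset.sum_congr rfl fun i _ => e3 i, Finset.sum_add_distrib]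
  congr 1
  rw [Finset.sum_ite_eq' Finset.univ (⟨j, hj⟩ : Fin N) fun i => w i, if_pos (Finset.mem_univ _)]

/-- the weights of the prefixes are the speeds -/
theorem wsm_wof {M : ℕ} {a : ℕ → ℝ} (h0 : a 0 = 0) (j : ℕ) (hj : j ≤ M + 1) : wsm (wof M a) j = a j := by
  induction j with
  | zero =>
    rw [h0]
    exact Finset.sum_eq_zero fun i _ => if_neg (Nat.not_lt_zero _)
  | succ j ih =>
    rw [wsm_succ (Nat.lt_of_succ_le hj), ih (Nat.le_of_succ_le hj), wof_eq]
    ring

/-- a frame bounds the volumes of the truncated point -/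
theorem volP_trn_le [Finite ι] {s : MSys S M E ι} {R : Rsl S} {w : Fin M → ℝ} {c e : ℝ} (he : 0 < e) (h1 : e ≤ 1)
    (hw : ∀ i, 1 ≤ w i) (hc : 0 < c) (hwc : ∀ i, w i * c < 1) {l : Lab S} (hl : KLb s R (e * c) l)
    (f : Frm s.Q l fun j => w j * (e * c)) {j : ℕ} (hj : j ≤ M) :
    volP (s.trn e he h1) R c hj ≤ ∑ i : Fin M, if i.val < j then 1 - w i * c else 0 := by
  obtain ⟨d, hd⟩ : ∃ d : ℕ, d = ⌈∑ i, w i⌉₊ := ⟨_, rfl⟩
  have hdg : ∀ k ω j, (f.P k ω j).totalDegree ≤ d := by
    intro k ω j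
    rw [hd]
    exact f.deg (mul_pos he hc) hw (fun i => Finset.single_le_sum (f := w) (fun i _ => zero_le_one.trans (hw i))
      (Finset.mem_univ i)) k ω j
  have hl1 : (tnL e he l).DMf (cndR (s.trn e he h1) R c) := by
    rw [cndR_trn]
    refine tnL_DMf.2 ?_
    rw [← cndR_fcs]
    exact hl.1
  have hl2 : (LC.kz (S := S.chg S.tr e he) fun k => fc (F := (S.chg S.tr e he).F k) (R k)).ev (tnL e he l) :=
    tnL_kz.2 hl.2
  exact volCO_frm (S := S.chg S.tr e he) (Q := s.Q.chg S.tr e he)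
    (C := LC.kz (S := S.chg S.tr e he) fun k => fc (F := (S.chg S.tr e he).F k) (R k))
    (A := cndR (s.trn e he h1) R c) (l := tnL e he l) (La := fun j => w j * c)
    (frt he h1 (fun j => by ring) f) hl1 hl2 (fun i => mul_nonneg (zero_le_one.trans (hw i)) hc.le)
    (fun i => (hwc i).le) hdg j hj

/-- **EXACT NUMBERS OF THE TRUNCATION**, one law -/
theorem num_trn [Finite ι] {g : ℕ} {s : MSys S (M + 1) (lin g) ι} {R : Rsl S} (hst : ∀ m, m < M + 1 → STu m)
    (hP : Pt s R) {w : Fin (M + 1) → ℝ} (hw : ∀ i, 1 ≤ w i) {l0 : ℝ}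
    (hn : ∀ c : ℝ, 0 ≤ c → c < l0 → NumS c w s R)
    (hnX : ∀ c : ℝ, 0 ≤ c → c < l0 → AllE (fun _ t R' => NumS c w t R') S s R)
    {e : ℝ} (he : 0 < e) (h1 : e ≤ 1) (hel : e ≤ l0) : Num w (s.trn e he h1) R := by
  intro c h0 hwc j hj
  have hc1 : c < 1 := by
    have h2 := hwc 0
    have h3 := hw 0
    nlinarith
  have hec : e * c < e := by nlinarith
  have hec0 : 0 ≤ e * c := mul_nonneg he.le h0
  apply le_antisymm
  · rcases h0.eq_or_lt with h00 | hc
    · subst h00
      rw [mul_zero, sub_zero]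
      exact Pool.Agent.Helper7.RD.volP_le hj
    · have hwe : ∀ i, w i * (e * c) < 1 := fun i => by
        have h4 : w i * (e * c) = e * (w i * c) := by ring
        rw [h4]
        have h5 : 0 ≤ w i * c := mul_nonneg (zero_le_one.trans (hw i)) hc.le
        nlinarith [hwc i]
      obtain ⟨Z, f, -, z2, -⟩ := frames_num hst hP hw (mul_pos he hc) hwe (hec.trans_le h1)
        (fun c' a b => hn c' a.le (b.trans_lt (hec.trans_le hel)))
        (fun c' a b => hnX c' a.le (b.trans_lt (hec.trans_le hel)))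
      have h6 := volP_trn_le he h1 hw hc hwc z2 f hj
      rw [sum_pre w c hj] at h6
      exact h6
  · have h3 := volP_trn s he h1 R c hj
    have h4 : volP s R (e * c) hj = j - wsm w j * (e * c) := hn (e * c) hec0 (hec.trans_le hel) j hj
    rw [h4, sub_sub_cancel] at h3
    have h5 : e * (j - volP (s.trn e he h1) R c hj) ≤ e * (wsm w j * c) := by
      refine h3.trans (le_of_eq ?_)
      ring
    have h6 := le_of_mul_le_mul_left h5 he
    linarith

/-- **ROW NUMJ** -/
theorem numj (M : ℕ) : NUMJ M := by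
  intro A C v hctx m g r e0 P' W a hW hS hM
  refine ⟨P'.l, 1, P'.l0, one_pos, fun S s R hL e he h1 hel => ?_⟩
  have hsum : ∀ j, j ≤ M + 1 → wsm (wof M a) j = a j := fun j hj => wsm_wof hS.zero j hj
  have hP : Pt s R := hL.ke.bk.cl.2.1
  have hone : ∀ (T : Sp) (q : Pj T S) (B : ∀ k, (T.F k).Ω → Prop) (hB : 0 < ul (T.pr B)),
      ∀ c : ℝ, 0 ≤ c → c < P'.l → NumS c (wof M a) (s.im q B hB) R := by
    intro T q B hB c h0 h2 j hj
    have h3 := hL.ke.bk.rig T q B hB c h0 h2 j hj
    rw [hL.num c h0 h2 j hj] at h3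
    have h4 : (j : ℝ) - volP (s.im q B hB) R c hj = a j * c := h3
    have h5 := hsum j hj
    show volP (s.im q B hB) R c hj = j - wsm (wof M a) j * c
    rw [h5]
    linarith
  have hn0 : ∀ c : ℝ, 0 ≤ c → c < P'.l → NumS c (wof M a) s R := by
    intro c h0 h2 j hj
    have h3 : (j : ℝ) - volP s R c hj = a j * c := hL.num c h0 h2 j hj
    show volP s R c hj = j - wsm (wof M a) j * c
    rw [hsum j hj]
    linarith
  have hall : AllE (fun _ t R' => Pt t R' ∧ (∀ c : ℝ, 0 ≤ c → c < P'.l → NumS c (wof M a) t R') ∧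
      ∀ c : ℝ, 0 ≤ c → c < P'.l → AllE (fun _ t' R'' => NumS c (wof M a) t' R'') _ t R') S s R := by
    intro T q B hB
    exact ⟨pt_im hP q B hB, fun c h0 h2 => hone T q B hB c h0 h2, fun c h0 h2 =>
      Pool.Agent.Helper52.MW.AllE_im (fun T q B hB => hone T q B hB c h0 h2) q B hB⟩
  exact AllE_trn he h1 (fun S s R h => num_trn hctx.st h.1 (wof_ge hS) h.2.1 h.2.2 he h1 hel) hall

/-- **ROW CARJ** -/
theorem carj (M : ℕ) : CARJ M := carj_of (numj M)

end

end Pool.Agent.Helper48.ROK
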