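import Pool.Agent.Helper48.DGR.DgrW
import Pool.Agent.Helper48.ROK.Mx

/-! DEGREES OF THE VOLUMES OF THE PREFIXES, all windows `0 <= c < 1`, any pair whose resolution knows the point; frames from
the numbers without a hypothesis on the degrees. -/

set_option autoImplicit false

namespace Pool.Agent.Helper48.ROK

open Finset Filter Topology Matrix Pool.Agent.Helper69.RK Pool.Agent.Helper31.EC Pool.Agent.Helper31.EC.Sp
open Pool.Agent.Helper40.EL Pool.Agent.Helper89.LX Pool.Agent.Helper3.LF Pool.Agent.Helper84.MT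
open Pool.Agent.Helper89.RAK (Lit KC)
open Pool.Agent.Helper36.AM (Frm STu)
open Pool.Agent.Helper87.NSL (KnS cndR)
open Pool.Agent.Helper7.RD (volC volCO volC_eq volCO_le volC_nonneg volC_le_M)
open Pool.Agent.Helper89.RAD (cnA dp)
open Pool.Agent.Helper18.PRM (vcrd scrd)
open Pool.Agent.Helper48.DGR (dgr_winO)
open Pool.Agent.Helper29.MX

noncomputable section

variable {S T : Sp} {M : ℕ} {E : ℕ → ℕ} {ι : Type}

/-- the volumes of the prefixes are attained, literal resolutions -/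
theorem att_lit (hst : ∀ m, m < M → STu m) (g : ℕ) : ∃ D₁ : ℕ, 1 ≤ D₁ ∧ ∀ D, D₁ ≤ D → ∀ (ι : Type) [Finite ι]
    (S : Sp) (s : MSys S M (lin g) ι) (R : ∀ k, Setoid (S.F k).Ω) (_ : Lit R s.Q) (c : ℝ) (_ : 0 ≤ c) (_ : c < 1)
    (j : ℕ) (hj : j ≤ M), volC (KC R) (cnA s (dp R) c) (pf s.Q hj) D ≤ volCO (KC R) (cnA s (dp R) c) (pf s.Q hj) := by
  have h1 : ∀ j : Fin M, ∃ D₁ : ℕ, 1 ≤ D₁ ∧ ∀ D, D₁ ≤ D → ∀ (ι : Type) [Finite ι]
      (S : Sp) (s : MSys S (j.val + 1) (lin g) ι) (R : ∀ k, Setoid (S.F k).Ω) (_ : Lit R s.Q) (c : ℝ) (_ : 0 ≤ c)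
      (_ : c < 1), volC (KC R) (cnA s (dp R) c) s.Q D ≤ volCO (KC R) (cnA s (dp R) c) s.Q := fun j =>
    dgr_winO (fun m hm => hst m (lt_of_lt_of_le hm (Nat.succ_le_of_lt j.isLt))) g
  choose D₁ hD1 hD using h1
  refine ⟨(∑ j, D₁ j) + 1, Nat.le_add_left _ _, fun D h ι _ S s R hlit c h0 hc j hj => ?_⟩
  rcases Nat.eq_zero_or_pos j with hz | hj0
  · subst hz
    have a1 : volC (KC R) (cnA s (dp R) c) (pf s.Q hj) D ≤ ((0 : ℕ) : ℝ) := volC_le_M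
    have a2 : 0 ≤ volCO (KC R) (cnA s (dp R) c) (pf s.Q hj) := le_ciInf fun D' => volC_nonneg
    rw [Nat.cast_zero] at a1
    exact a1.trans a2
  · obtain ⟨i, rfl⟩ : ∃ i, j = i + 1 := ⟨j - 1, by omega⟩
    have hi : i < M := hj
    have h2 : D₁ ⟨i, hi⟩ ≤ D := by
      have h3 := Finset.single_le_sum (f := D₁) (fun i _ => Nat.zero_le _) (Finset.mem_univ (⟨i, hi⟩ : Fin M))
      omega
    have e1 : cnA (scrd (Fin.castLE hj) s) (dp R) c = cnA s (dp R) c := funext fun i => by cases i <;> rfl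
    have hlit' : Lit R (scrd (Fin.castLE hj) s).Q := by
      intro k ω ω' r
      have h2 : s.Q.v k ω = s.Q.v k ω' := hlit k r
      show (fun i => s.Q.v k ω (Fin.castLE hj i)) = fun i => s.Q.v k ω' (Fin.castLE hj i)
      rw [h2]
    have h4 := hD ⟨i, hi⟩ D h2 ι S (scrd (Fin.castLE hj) s) R hlit' c h0 hc
    rw [e1] at h4
    exact h4

/-- **THE VOLUMES OF THE PREFIXES ARE ATTAINED in one degree**, which depends on the dimension and `g` only -/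
theorem att_all (hst : ∀ m, m < M → STu m) (g : ℕ) : ∃ D₁ : ℕ, 1 ≤ D₁ ∧ ∀ D, D₁ ≤ D → ∀ (ι : Type) [Finite ι]
    (S : Sp) (s : MSys S M (lin g) ι) (R : Rsl S) (_ : Pt s R) (c : ℝ) (_ : 0 ≤ c) (_ : c < 1), AttS D c s R := by
  obtain ⟨D₁, h0, h1⟩ := att_lit hst g
  refine ⟨D₁, h0, fun D hD ι _ S s R hP c c0 c1 j hj => ?_⟩
  have hR : KnS R s.Q.v := hP
  have h2 := h1 D hD ι S s (nrm R s.Q) (nrm_lit R s.Q) c c0 c1 j hj
  rw [volC_res (nrm_fc hR), volCO_res (nrm_fc hR)] at h2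
  have e1 : cndR s R c = cnA s (dp R) c := cndR_eq s R c
  show volC (KZ R) (cndR s R c) (pfx s.Q hj) D ≤ volCO (KZ R) (cndR s R c) (pfx s.Q hj)
  rw [e1]
  exact h2

/-- the point is known to the resolution, on events of extensions -/
theorem pt_im {s : MSys S M E ι} {R : Rsl S} (h : Pt s R) (p : Pj T S) (A : ∀ k, (T.F k).Ω → Prop)
    (hA : 0 < ul (T.pr A)) : Pt (S := Sp.im p A) (s.im p A hA) R := kns_im (R := R) (Q := s.Q) h p A

/-- the volumes of the prefixes are attained on all events of all extensions -/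
theorem att_allE (hst : ∀ m, m < M → STu m) (g : ℕ) : ∃ D₁ : ℕ, 1 ≤ D₁ ∧ ∀ D, D₁ ≤ D → ∀ (ι : Type) [Finite ι]
    (S : Sp) (s : MSys S M (lin g) ι) (R : Rsl S) (_ : Pt s R) (c : ℝ) (_ : 0 ≤ c) (_ : c < 1),
    AllE (fun _ t R' => AttS D c t R') S s R := by
  obtain ⟨D₁, h0, h1⟩ := att_all hst g
  exact ⟨D₁, h0, fun D hD ι _ S s R hP c c0 c1 T p A hA =>
    h1 D hD ι (Sp.im p A) (s.im p A hA) R (pt_im hP p A hA) c c0 c1⟩

/-- **FRAMES FROM THE NUMBERS** (no hypothesis on the degrees) -/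
theorem frames_num [Finite ι] {g : ℕ} {s : MSys S M (lin g) ι} {R : Rsl S} (hst : ∀ m, m < M → STu m) (hP : Pt s R)
    {w : Fin M → ℝ} (hw : ∀ i, 1 ≤ w i) {c : ℝ} (hc : 0 < c) (hwc : ∀ i, w i * c < 1) (hc1 : c < 1)
    (hN : ∀ c' : ℝ, 0 < c' → c' ≤ c → NumS c' w s R)
    (hNX : ∀ c' : ℝ, 0 < c' → c' ≤ c → AllE (fun _ t R' => NumS c' w t R') S s R) :
    ∃ (Z : ∀ k, Setoid (S.F k).Ω) (_ : Frm s.Q (Lab.ofZ Z) fun j => w j * c), (∀ᶠ k in UF, R k ⊓ (S.F k).Z ≤ Z k) ∧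
      KLb s R c (Lab.ofZ Z) ∧ ∀ D, ∃ x : ∀ k, FD (S.F k) (Mon M D), (∀ k, (x k).l = Lab.ofZ Z k) ∧ KOp s R D c x := by
  obtain ⟨D₁, -, h1⟩ := att_all hst g
  obtain ⟨D₂, -, h2⟩ := att_allE hst g
  refine frames_mx hst hP hw hc hwc hc1 hN hNX fun c' h0 h3 => ⟨max D₁ D₂, ?_, ?_⟩
  · exact h1 _ (le_max_left _ _) ι S s R hP c' h0.le (h3.trans_lt hc1)
  · exact h2 _ (le_max_right _ _) ι S s R hP c' h0.le (h3.trans_lt hc1)

end

end Pool.Agent.Helper48.ROK
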