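import Pool.Agent.Helper48.ROK.Vol
import Pool.Agent.Helper81.MT.Glb
import Pool.Agent.Helper85.FRG.Lit
import Pool.Agent.Helper49.MD.Lim

/-! ROWS OF K-LABELS (6): NORMALISATION OF THE RESOLUTION. A resolution which knows the point on the support (`KnS`) may be
replaced by a literal one (`Lit`), with the same labels, forms, volumes and carriers. Rows and frames for such
resolutions; the degree of the volumes may depend on the window. -/

set_option autoImplicit false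

namespace Pool.Agent.Helper48.ROK

open Finset Filter Topology Matrix Pool.Agent.Helper69.RK Pool.Agent.Helper31.EC Pool.Agent.Helper31.EC.Sp
open Pool.Agent.Helper40.EL Pool.Agent.Helper89.LX Pool.Agent.Helper3.LF Pool.Agent.Helper84.MT
open Pool.Agent.Helper89.RAK (Lit KC)
open Pool.Agent.Helper36.AM (Frm)
open Pool.Agent.Helper85.FRM (pre)
open Pool.Agent.Helper85.FRG (RowD Car frtd lit_kns)
open Pool.Agent.Helper52.GF (scw kz_congr)
open Pool.Agent.Helper87.NSL (KnS)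
open Pool.Agent.Helper7.RD (volC volCO volC_eq volC_mono volCO_mono volCO_le)
open Pool.Agent.Helper89.RAD (cnA dp DMD stD)
open Pool.Agent.Helper18.PRM (vcrd scrd)

noncomputable section

variable {S T : Sp} {M N D : ℕ} {E : ℕ → ℕ} {ι κ : Type}

/-- the literal resolution -/
def nrm (R : ∀ k, Setoid (S.F k).Ω) (Q : S.VV M) : ∀ k, Setoid (S.F k).Ω := fun k => R k ⊓ Setoid.ker (Q.v k)

theorem nrm_lit (R : ∀ k, Setoid (S.F k).Ω) (Q : S.VV M) : Lit (nrm R Q) Q := fun _ => inf_le_right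

/-- the same partitions up to null sets -/
theorem nrm_fc {R : ∀ k, Setoid (S.F k).Ω} {Q : S.VV M} (h : KnS R Q.v) : ∀ᶠ k in UF, fc (nrm R Q k) = fc (R k) := by
  filter_upwards [h] with k hk
  apply le_antisymm
  · exact fc_le fun ω ω' a b z r => ⟨r, hk ω ω' a b z r⟩
  · exact fc_mono inf_le_left

/-- the point of an event of an extension is known to the resolution -/
theorem kns_im {R : ∀ k, Setoid (S.F k).Ω} {Q : S.VV M} (h : KnS R Q.v) (p : Pj T S) (A : ∀ k, (T.F k).Ω → Prop) :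
    KnS (S := Sp.im p A) R (Q.im p A).v := by
  filter_upwards [h] with k hk ω ω' a b z r
  exact hk ω ω' (FSp.im_supp (p.fp k) (A k) ω a) (FSp.im_supp (p.fp k) (A k) ω' b) z r

section
variable {R R' : ∀ k, Setoid (S.F k).Ω} (h : ∀ᶠ k in UF, fc (R' k) = fc (R k)) {s : MSys S M E ι} {c : ℝ}

include h

theorem cnA_ple (i : Option ι) : PLe (cnA s (dp R') c i) (cnA s (dp R) c i) := by
  rcases i with _ | i
  · exact PLe_of_ev (by filter_upwards [h] with k hk using hk.le)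
  · exact PLe.refl _

theorem ev_res (l : Lab S) : (KC R').ev l ↔ (KC R).ev l := kz_congr h l

/-- forms -/
theorem adfK_res [Finite ι] {Q : S.VV N} {x : ∀ k, FD (S.F k) (Mon N D)} :
    (gaq Q D).AdfK (KC R') (cnA s (dp R') c) x ↔ (gaq Q D).AdfK (KC R) (cnA s (dp R) c) x := by
  have h' : ∀ᶠ k in UF, fc (R k) = fc (R' k) := h.mono fun _ e => e.symm
  constructor
  · intro a
    exact ⟨a.1.mono_of fun i => ⟨i, cnA_ple h i⟩, (ev_res h _).1 a.2⟩
  · intro a
    exact ⟨a.1.mono_of fun i => ⟨i, cnA_ple h' i⟩, (ev_res h _).2 a.2⟩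

theorem optfK_res [Finite ι] {Q : S.VV N} {x : ∀ k, FD (S.F k) (Mon N D)} :
    (gaq Q D).OptfK (KC R') (cnA s (dp R') c) x ↔ (gaq Q D).OptfK (KC R) (cnA s (dp R) c) x := by
  constructor
  · intro a
    exact ⟨(adfK_res h).1 a.1, fun y hy => a.2 y ((adfK_res h).2 hy)⟩
  · intro a
    exact ⟨(adfK_res h).2 a.1, fun y hy => a.2 y ((adfK_res h).1 hy)⟩

/-- volumes -/
theorem volC_res [Finite ι] (Q : S.VV N) (D : ℕ) :
    volC (KC R') (cnA s (dp R') c) Q D = volC (KC R) (cnA s (dp R) c) Q D := by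
  obtain ⟨x, hx⟩ := (gaq Q D).exists_optfK (KC R') (cnA s (dp R') c)
  rw [volC_eq hx, volC_eq ((optfK_res h).1 hx)]

theorem volCO_res [Finite ι] (Q : S.VV N) : volCO (KC R') (cnA s (dp R') c) Q = volCO (KC R) (cnA s (dp R) c) Q :=
  iInf_congr fun D => volC_res h Q D

/-- carriers -/
theorem car_res [Finite ι] (l : Lab S) : Car s R' (fun k => fc (R' k)) c l ↔ Car s R (fun k => fc (R k)) c l := by
  constructor
  · intro a D
    obtain ⟨x, hx, ho⟩ := a D
    exact ⟨x, hx, opt_scw.2 ((optfK_res h).1 (opt_scw.1 ho))⟩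
  · intro a D
    obtain ⟨x, hx, ho⟩ := a D
    exact ⟨x, hx, opt_scw.2 ((optfK_res h).2 (opt_scw.1 ho))⟩

theorem volS_res [Finite ι] {w : Fin M → ℝ} (hV : VolS s R D c w) : VolS s R' D c w := fun m hm => by
  rw [volC_res h]
  exact hV m hm

end

section
variable {s : MSys S M E ι} {R : ∀ k, Setoid (S.F k).Ω} {c : ℝ}

/-- volumes on all events of all extensions -/
theorem volX_nrm [Finite ι] (hR : KnS R s.Q.v) {w : Fin M → ℝ} (hX : VolX s R D c w) : VolX s (nrm R s.Q) D c w := by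
  intro T p A hA
  have h1 : ∀ᶠ k in UF, fc (F := (Sp.im p A).F k) (nrm R s.Q k) = fc (F := (Sp.im p A).F k) (R k) :=
    nrm_fc (S := Sp.im p A) (R := R) (Q := (s.im p A hA).Q) (kns_im hR p A)
  exact volS_res (S := Sp.im p A) (s := s.im p A hA) h1 (hX T p A hA)

end

/-- **THE NUMBERS OF THE CARRIERS**, for resolutions which know the point -/
theorem num_carP [Finite ι] {g : ℕ} {s : MSys S M (lin g) ι} {R : ∀ k, Setoid (S.F k).Ω}
    (hST : ∀ d, d < M → ∀ r, STm D d (lin g) (Fin r)) (hR : KnS R s.Q.v) (hD : 1 ≤ D) {c : ℝ} (h0 : 0 ≤ c) (h1 : c < 1)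
    {w : Fin M → ℝ} (hV : VolS s R D c w) (l : Lab S) (hl : Car s R (fun k => fc (R k)) c l) (j : Fin M) :
    Tendsto (fun k => h ((l k).p.map (pre s.Q j.val k)) (l k).v / (S.F k).n) UF
      (𝓝 (∑ i : Fin M, if i < j then 1 - w i * c else 0)) :=
  num_car hST (nrm_lit R s.Q) hD h0 h1 (volS_res (nrm_fc hR) hV) l ((car_res (nrm_fc hR) l).2 hl) j

/-- the entropies of the prefixes over K-labels from below, for resolutions which know the point -/
theorem num_lowP [Finite ι] {g : ℕ} {s : MSys S M (lin g) ι} {R : ∀ k, Setoid (S.F k).Ω} {m : ℕ} (hm : m ≤ M)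
    (hST : ∀ r, STm D m (lin g) (Fin r)) (hR : KnS R s.Q.v) (hD : 1 ≤ D) {c : ℝ} (h0 : 0 ≤ c) (h1 : c < 1) {l : Lab S}
    (hl : DMD s (dp R) R c l) : volC (KC R) (cnA s (dp R) c) (pf s.Q hm) D ≤ H (up1 l ((pf s.Q hm).dg 1)) := by
  have h2 : DMD s (dp (nrm R s.Q)) (nrm R s.Q) c l := by
    refine ⟨(Pool.Agent.Helper49.MD.DMf_congr (fun i => ?_) l).1 hl.1, (ev_res (nrm_fc hR) l).2 hl.2⟩
    rcases i with _ | i
    · filter_upwards [nrm_fc hR] with k hk using hk.symm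
    · exact Eventually.of_forall fun k => rfl
  have h3 := num_low hm hST (nrm_lit R s.Q) hD h0 h1 h2
  rw [volC_res (nrm_fc hR)] at h3
  exact h3

/-- THE VOLUMES AT THE WINDOW `c` in some degree `D`, on the space and on all events of all extensions, and the structure
theorem of the smaller dimensions in this degree -/
def VolW {g : ℕ} (s : MSys S M (lin g) ι) (R : ∀ k, Setoid (S.F k).Ω) (c : ℝ) (w : Fin M → ℝ) : Prop :=
  ∃ D : ℕ, 1 ≤ D ∧ (∀ d, d < M → ∀ r, STm D d (lin g) (Fin r)) ∧ VolS s R D c w ∧ VolX s R D c w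

/-- the numbers of the carriers, degrees which depend on the window -/
theorem VolW.num [Finite ι] {g : ℕ} {s : MSys S M (lin g) ι} {R : ∀ k, Setoid (S.F k).Ω} (hR : KnS R s.Q.v) {c : ℝ}
    (h0 : 0 ≤ c) (h1 : c < 1) {w : Fin M → ℝ} (hV : VolW s R c w) (l : Lab S)
    (hl : Car s R (fun k => fc (R k)) c l) (j : Fin M) :
    Tendsto (fun k => h ((l k).p.map (pre s.Q j.val k)) (l k).v / (S.F k).n) UF
      (𝓝 (∑ i : Fin M, if i < j then 1 - w i * c else 0)) := by
  obtain ⟨D, hD, hST, h2, -⟩ := hV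
  exact num_carP hST hR hD h0 h1 h2 l hl j

/-- the rows for the literal resolution -/
theorem VolW.row [Finite ι] {g : ℕ} {s : MSys S M (lin g) ι} {R : ∀ k, Setoid (S.F k).Ω} (hR : KnS R s.Q.v) {c : ℝ}
    (h0 : 0 ≤ c) (h1 : c < 1) {w : Fin M → ℝ} (hV : VolW s R c w) (j : Fin M) : RowD s (nrm R s.Q) c j (w j * c) := by
  obtain ⟨D, hD, hST, h2, h3⟩ := hV
  exact rowD_vol hST (nrm_lit R s.Q) hD h0 h1 (volS_res (nrm_fc hR) h2) (volX_nrm hR h3) j

/-- **THE FRAMES FROM THE VOLUMES**, resolutions which know the point, degrees which depend on the window -/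
theorem frames_volP [Finite ι] {g : ℕ} (s : MSys S M (lin g) ι) {R : ∀ k, Setoid (S.F k).Ω} (hR : KnS R s.Q.v)
    {w : Fin M → ℝ} (hw : ∀ i, 1 ≤ w i) {c : ℝ} (hc : 0 < c) (hwc : ∀ i, w i * c < 1) (hc1 : c < 1)
    (hV : ∀ c' : ℝ, 0 < c' → c' ≤ c → VolW s R c' w) :
    ∃ (l : Lab S) (_ : Frm s.Q l fun j => w j * c), Car s R (fun k => fc (R k)) c l := by
  obtain ⟨l, f, hl⟩ := frtd s (R := nrm R s.Q) (lit_kns (nrm_lit R s.Q)) hw hc hwc
    (fun c' h0 h1 j l hl => (hV c' h0 h1).num hR h0.le (h1.trans_lt hc1) l ((car_res (nrm_fc hR) l).1 hl) j)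
    (fun c' h0 h1 j => (hV c' h0 h1).row hR h0.le (h1.trans_lt hc1) j)
  exact ⟨l, f, (car_res (nrm_fc hR) l).1 hl⟩

/-- **LITERAL CARRIERS WITH FRAMES FROM THE VOLUMES** -/
theorem frames_lit [Finite ι] {g : ℕ} (s : MSys S M (lin g) ι) {R : ∀ k, Setoid (S.F k).Ω} (hR : KnS R s.Q.v)
    {w : Fin M → ℝ} (hw : ∀ i, 1 ≤ w i) {c : ℝ} (hc : 0 < c) (hwc : ∀ i, w i * c < 1) (hc1 : c < 1)
    (hV : ∀ c' : ℝ, 0 < c' → c' ≤ c → VolW s R c' w) :
    ∃ (Z : ∀ k, Setoid (S.F k).Ω) (_ : Frm s.Q (Lab.ofZ Z) fun j => w j * c), (∀ᶠ k in UF, R k ⊓ (S.F k).Z ≤ Z k) ∧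
      Car s R (fun k => fc (R k)) c (Lab.ofZ Z) := by
  obtain ⟨l, f, hl⟩ := frames_volP s hR hw hc hwc hc1 hV
  exact hl.lit f

end

end Pool.Agent.Helper48.ROK
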