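import Pool.Agent.Helper48.ROK.Main

/-! ROWS OF K-LABELS (4): THE ROWS `RowD s R c j (w_j c)`, and the frames of the carriers. -/

set_option autoImplicit false

namespace Pool.Agent.Helper48.ROK

open Finset Filter Topology Matrix Pool.Agent.Helper69.RK Pool.Agent.Helper31.EC Pool.Agent.Helper31.EC.Sp
open Pool.Agent.Helper40.EL Pool.Agent.Helper89.LX Pool.Agent.Helper3.LF Pool.Agent.Helper84.MT Pool.Agent.Helper89.RAT
open Pool.Agent.Helper89.RAK (Lit KC addW_kz)
open Pool.Agent.Helper36.AM (Frm)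
open Pool.Agent.Helper85.FRM (pre Knw)
open Pool.Agent.Helper85.FRG (RowD Car frtd exists_car lit_bd lit_kns Car.jn)
open Pool.Agent.Helper52.GF (scw)
open Pool.Agent.Helper48.ROW
open Pool.Agent.Helper3.KL (vol_optK_le)
open Pool.Agent.Helper14.MC (cnt_vol)

noncomputable section

variable {S T : Sp} {M N D : ℕ} {E : ℕ → ℕ} {ι κ : Type} {s : MSys S M E ι} {R : ∀ k, Setoid (S.F k).Ω}

theorem sum_le_split (w : Fin M → ℝ) (c : ℝ) (j : Fin M) : (∑ i : Fin M, if i ≤ j then 1 - w i * c else 0) =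
    (∑ i : Fin M, if i < j then 1 - w i * c else 0) + (1 - w j * c) := by
  have e1 : ∀ i : Fin M, (if i ≤ j then 1 - w i * c else 0) =
      (if i < j then 1 - w i * c else 0) + (if i = j then 1 - w i * c else 0) := by
    intro i
    rcases lt_trichotomy i j with h1 | h1 | h1
    · rw [if_pos h1.le, if_pos h1, if_neg h1.ne, add_zero]
    · rw [if_pos h1.le, if_neg (by rw [h1]; exact lt_irrefl _), if_pos h1, zero_add]
    · rw [if_neg (not_le.2 h1), if_neg (not_lt.2 h1.le), if_neg h1.ne', add_zero]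
  rw [Finset.sum_congr rfl fun i _ => e1 i, Finset.sum_add_distrib]
  congr 1
  rw [Finset.sum_ite_eq' Finset.univ j, if_pos (Finset.mem_univ j)]

/-- lower numbers in the form of `typ_low` -/
theorem low_num {c : ℝ} {w : Fin M → ℝ} (hL : LowK s R c w) (j : Fin M) {P : S.VV j.val}
    (hP : ∀ k ω a, P.v k ω a = s.Q.v k ω (Fin.castLE j.isLt.le a)) (T : Sp) (p : Pj T S) (A : ∀ k, (T.F k).Ω → Prop)
    (hA : 0 < ul (T.pr A)) (l : Lab (Sp.im p A)) (hl : l.DMf (fun i => (scw s (fun k => fc (R k)) c i).im p A))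
    (hC : (LC.kz (S := Sp.im p A) fun k => fc (R k)).ev l) :
    (∑ i : Fin M, if i < j then 1 - w i * c else 0) ≤ H (up1 l ((P.im p A).dg 1)) := by
  have h1 : l.DMf (scw (s.im p A hA) (fun k => fc (R k)) c) := by
    rw [scw_im]
    exact hl
  exact H_low (Q := (s.im p A hA).Q) j.isLt.le (P := P.im p A) hP l (hL T p A hA l h1 hC j)

/-- THE ROWS of the inner coordinates -/
theorem rowD_int [Finite ι] (hR : Lit R s.Q) (hD : 1 ≤ D) {c : ℝ} {w : Fin M → ℝ} (hL : LowK s R c w)
    (hV : VolC s R D c w) (j : Fin M) (hj : j.val + 1 < M) : RowD s R c j (w j * c) := by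
  obtain ⟨Q', y, hQ', hy, hv⟩ := hV.pre j hj
  obtain ⟨x, hx⟩ := (gaq Q' D).exists_optfK (KC R) (scw s (fun k => fc (R k)) c)
  have hR' : Lit R Q' := by
    intro k ω ω' r
    have h1 : s.Q.v k ω = s.Q.v k ω' := hR k r
    show Q'.v k ω = Q'.v k ω'
    funext a
    rw [hQ', hQ', h1]
  have hv' : vol Q' D x ≤ (∑ i : Fin M, if i < j then 1 - w i * c else 0) + 1 - w j * c := by
    have h1 := vol_optK_le hx hy
    rw [sum_le_split] at hv
    linarith
  have hlow : ∀ (T : Sp) (p : Pj T S) (A : ∀ k, (T.F k).Ω → Prop) (_ : 0 < ul (T.pr A))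
      (y : ∀ k, FD ((Sp.im p A).F k) (Mon (j.val + 1) D)),
      (gaq (Q'.im p A) D).AdfK (LC.kz (S := Sp.im p A) fun k => fc (R k))
        (fun i => (scw s (fun k => fc (R k)) c i).im p A) y →
          (∑ i : Fin M, if i < j then 1 - w i * c else 0) + 1 - w j * c ≤ vol (Q'.im p A) D y := by
    intro T p A hA y hy
    have h1 := cnt_vol (Q'.im p A) hD y hy.1
    have h2 := low_num hL ⟨j.val + 1, hj⟩ (P := Q') hQ' T p A hA (lb y) (Gau.Adf.dm _ hy.1) hy.2
    rw [sum_succ] at h2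
    linarith
  have hrow := row_of (s := s) hR hD (Fin.castLE j.isLt) (Fin.castLE_injective j.isLt) (Fin.last j.val) (fun a => by
    rw [Fin.le_def]
    exact Nat.le_of_lt_succ a.2) (Q' := Q') hQ' hx.1
    (typ_low hR' hD hx (Fin.last j.val) (pvv Q' (Nat.le_succ j.val)) (Fin.castLE (Nat.le_succ j.val))
      (fun a h => by
        have h1 := congrArg Fin.val h
        rw [Fin.val_last, Fin.val_castLE] at h1
        exact absurd h1 a.isLt.ne)
      (fun k ω a => rfl) (a := ∑ i : Fin M, if i < j then 1 - w i * c else 0) (θ := w j * c)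
      (fun T p A hA l hl hC => low_num hL j (P := pvv Q' (Nat.le_succ j.val)) (fun k ω a => hQ' k ω _) T p A hA l hl hC)
      hv' hlow)
  have e2 : (Fin.castLE j.isLt (Fin.last j.val) : Fin M) = j := Fin.ext rfl
  rw [e2] at hrow
  exact hrow

/-- THE ROW of the last coordinate -/
theorem rowD_last [Finite ι] {d : ℕ} {s : MSys S (d + 1) E ι} (hR : Lit R s.Q) (hD : 1 ≤ D) {c : ℝ}
    {w : Fin (d + 1) → ℝ} (hL : LowK s R c w) (hV : VolC s R D c w) : RowD s R c (Fin.last d) (w (Fin.last d) * c) := by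
  obtain ⟨y, hy, hv⟩ := hV.all
  obtain ⟨x, hx⟩ := (gaq s.Q D).exists_optfK (KC R) (scw s (fun k => fc (R k)) c)
  have hv' : vol s.Q D x ≤ (∑ i : Fin (d + 1), if i < Fin.last d then 1 - w i * c else 0) + 1 -
      w (Fin.last d) * c := by
    have h1 := vol_optK_le hx hy
    rw [sum_last] at hv
    linarith
  have hlow : ∀ (T : Sp) (p : Pj T S) (A : ∀ k, (T.F k).Ω → Prop) (_ : 0 < ul (T.pr A))
      (y : ∀ k, FD ((Sp.im p A).F k) (Mon (d + 1) D)),
      (gaq (s.Q.im p A) D).AdfK (LC.kz (S := Sp.im p A) fun k => fc (R k))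
        (fun i => (scw s (fun k => fc (R k)) c i).im p A) y →
          (∑ i : Fin (d + 1), if i < Fin.last d then 1 - w i * c else 0) + 1 - w (Fin.last d) * c ≤
            vol (s.Q.im p A) D y := by
    intro T p A hA y hy
    have h1 : (gaq (s.im p A hA).Q D).AdfK (KC (S := Sp.im p A) R) (scw (s.im p A hA) (fun k => fc (R k)) c) y := by
      rw [scw_im]
      exact hy
    have h2 := hV.low T p A hA y h1
    rw [sum_last] at h2
    have e1 : vol (s.im p A hA).Q D y = vol (s.Q.im p A) D y := rfl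
    linarith
  exact row_of (s := s) hR hD (fun a : Fin (d + 1) => a) (fun a b h => h) (Fin.last d) (fun a => Fin.le_last a)
    (Q' := s.Q) (fun k ω a => rfl) hx.1
    (typ_low hR hD hx (Fin.last d) (pvv s.Q (Nat.le_succ d)) (Fin.castLE (Nat.le_succ d))
      (fun a h => by
        have h1 := congrArg Fin.val h
        rw [Fin.val_last, Fin.val_castLE] at h1
        exact absurd h1 a.isLt.ne)
      (fun k ω a => rfl) (a := ∑ i : Fin (d + 1), if i < Fin.last d then 1 - w i * c else 0)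
      (θ := w (Fin.last d) * c)
      (fun T p A hA l hl hC => low_num hL (Fin.last d) (P := pvv s.Q (Nat.le_succ d)) (fun k ω a => rfl) T p A hA l hl hC)
      hv' hlow)

/-- **THE ROWS OF THE K-LABELS** -/
theorem rowD [Finite ι] (hR : Lit R s.Q) (hD : 1 ≤ D) {c : ℝ} {w : Fin M → ℝ} (hL : LowK s R c w)
    (hV : VolC s R D c w) (j : Fin M) : RowD s R c j (w j * c) := by
  rcases Nat.lt_or_ge (j.val + 1) M with h2 | h2
  · exact rowD_int hR hD hL hV j h2
  · obtain ⟨d, rfl⟩ : ∃ d, M = d + 1 := ⟨M - 1, by have := j.isLt; omega⟩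
    have h3 : j = Fin.last d := Fin.ext (by
      rw [Fin.val_last]
      have := j.isLt
      omega)
    rw [h3]
    exact rowD_last hR hD hL hV

/-- **FRAMES OF THE CARRIERS** from the numbers and the volumes at all windows -/
theorem frames [Finite ι] (s : MSys S M E ι) {R : ∀ k, Setoid (S.F k).Ω} (hR : Lit R s.Q) (hD : 1 ≤ D) {w : Fin M → ℝ}
    (hw : ∀ i, 1 ≤ w i) {c : ℝ} (hc : 0 < c) (hwc : ∀ i, w i * c < 1)
    (hnum : ∀ c' : ℝ, 0 < c' → c' ≤ c → ∀ j : Fin M, ∀ l : Lab S, Car s R (fun k => fc (R k)) c' l →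
      Tendsto (fun k => h ((l k).p.map (pre s.Q j.val k)) (l k).v / (S.F k).n) UF
        (𝓝 (∑ i : Fin M, if i < j then 1 - w i * c' else 0)))
    (hN : ∀ c' : ℝ, 0 < c' → c' ≤ c → NumC s R c' w) (hV : ∀ c' : ℝ, 0 < c' → c' ≤ c → VolC s R D c' w) :
    ∃ (l : Lab S) (_ : Frm s.Q l fun j => w j * c), Car s R (fun k => fc (R k)) c l :=
  frtd s (lit_kns hR) hw hc hwc hnum fun c' h0 h1 j => rowD hR hD (low_of_num hR (hN c' h0 h1)) (hV c' h0 h1) j

end

end Pool.Agent.Helper48.ROK
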