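import Pool.Agent.Helper18.SRT.Row
import Pool.Agent.Helper95.VIS.Mc
import Pool.Agent.Helper81.AD.Typ
import Pool.Agent.Helper48.ROK.Mx

/-! FRAMES OF GIVEN CARRIERS [FRMIN]. If one K-label has a frame with the exponents `La`, then every literal partition
`X` which carries an optimal K-form (of a degree which is large for the frame) has a frame with the exponents `La` after
the addition of `o(n)` bits: the chart is chosen as a function of the optimal form, the point of the frame is computed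
from the point of the system; on the event where no chart is good the cell of the point is added. -/

set_option autoImplicit false

namespace Pool.Agent.Helper48.ROK

open Finset Filter Topology Matrix MvPolynomial Pool.Agent.Helper69.RK Pool.Agent.Helper31.EC
open Pool.Agent.Helper31.EC.Sp
open Pool.Agent.Helper40.EL Pool.Agent.Helper89.LX Pool.Agent.Helper3.LF Pool.Agent.Helper84.MT
open Pool.Agent.Helper36.AM (Frm cfs rwm rwm_qf pol_cfs rwx rwx_good inv inv_eval inv_deg)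
open Pool.Agent.Helper66.NJ (Kn1 zFD zFD_g gG gG_eq opt_zFD)
open Pool.Agent.Helper87.NSL (KnS)
open Pool.Agent.Helper18.SRT (frf frf_adfK)

noncomputable section

variable {S : Sp} {M D : ℕ} {κ : Type}

/-! ### good charts -/

/-- THE CHART `p` IS GOOD for the form `A` -/
structure GdP (S : Sp) (La : Fin M → ℝ) (d k : ℕ) (K T : ℝ) (A : Matrix (Mon M D) (Mon M D) ℝ)
    (p : Fin M → MvPolynomial (Fin M) ℝ) : Prop where
  tri : ∀ j, ∀ i ∈ (p j).vars, i < j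
  red : ∀ j, ∀ a ∈ (p j).support, a ≠ 0 → ∑ i, (a i : ℝ) * La i < La j
  dg : ∀ j, (p j).totalDegree ≤ d
  cf : ∀ j a, |(p j).coeff a| ≤ K
  dom : ∀ i (v : Mon M D → ℝ), (cfs D (C (S.dl (La i) k)⁻¹ * inv p i) ⬝ᵥ v) ^ 2 ≤ T * qf A v

/-- typically a good chart exists -/
theorem gd_typ [Finite κ] {Q : S.VV M} {R X : ∀ k, Setoid (S.F k).Ω} {A : κ → Part S}
    {G : ∀ k, (S.F k).Ω → Matrix (Mon M D) (Mon M D) ℝ} (hG : ∀ᶠ k in UF, Kn1 (X k) (G k))
    (hO : (gaq Q D).OptfK (LC.kz fun k => fc (R k)) A (fun k => zFD (X k) (G k)))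
    {l : Lab S} {La : Fin M → ℝ} (f : Frm Q l La) (hl : l.DMf A) (hC : (LC.kz fun k => fc (R k)).ev l)
    (h0 : ∀ i, 0 ≤ La i) (h1 : ∀ i, La i ≤ 1) {d : ℕ} (hd : ∀ k ω j, (f.P k ω j).totalDegree ≤ d)
    (hD : (d + 1) ^ M ≤ D) : ∃ K : ℕ → ℝ, S.Sub K ∧ ∀ e : ℝ, 0 < e →
      Tendsto (fun k => (S.F k).pb (fun ω => ¬ ∃ p, GdP S La d k (K k) (2 ^ (e * (S.F k).n)) (G k ω) p)) UF (𝓝 0) := by
  have hrd : ∀ k ω i, (f.row k ω i).totalDegree ≤ D := fun k ω i => (f.row_deg hd k ω i).trans hD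
  obtain ⟨K, hK, hb⟩ := f.row_bd h0 h1 hd D
  obtain ⟨K', hK', hgood⟩ := rwx_good l Q f.row hrd f.row_ms hK
  obtain ⟨Kc, hKc, hc⟩ := f.bd
  have hdom := Pool.Agent.Helper7.RD.optK_dom hO (frf_adfK f hl hC h0 h1 hd hD)
  refine ⟨Kc, hKc, fun e he => ?_⟩
  refine tendsto_of_tendsto_of_tendsto_of_le_of_le' tendsto_const_nhds (hdom e he)
    (Eventually.of_forall fun k => (S.F k).pb_nonneg _) ?_
  filter_upwards [hG, hb, hgood, hc] with k g1 g2 g3 g4
  have h4 := pb_push ((zFD (X k) (G k)).l.am (frf f D k).l).p1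
    (fun ω => ¬ ∃ p, GdP S La d k (Kc k) (2 ^ (e * (S.F k).n)) (G k ω) p)
  refine le_trans (le_of_eq h4.symm) ?_
  apply FSp.pb_mono
  intro w hw h5 h6
  apply h5
  have s2 := ((zFD (X k) (G k)).l.am (frf f D k).l).p2.supp w hw
  refine ⟨f.P k (((zFD (X k) (G k)).l.am (frf f D k).l).p2.π w), fun j i hi => f.tri k _ j i hi,
    fun j a ha h7 => f.red k _ j a ha h7, fun j => hd k _ j, fun j a => g4 _ s2 j a, fun i v => ?_⟩
  have e1 : ((zFD (X k) (G k)).jj (frf f D k)).g w = G k (((zFD (X k) (G k)).l.am (frf f D k).l).p1.π w) := by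
    show (zFD (X k) (G k)).g (((zFD (X k) (G k)).l.am (frf f D k).l).p1.π w) = _
    rw [zFD_g g1]
  have e2 : ((zFD (X k) (G k)).jj (frf f D k)).g' w =
      rwm D (f.row k (((zFD (X k) (G k)).l.am (frf f D k).l).p2.π w)) := ((g3 _ s2).2 (g2 _ s2).1).1
  have h8 := h6 v
  rw [e1, e2] at h8
  refine le_trans ?_ h8
  have h9 : qf (rwm D (f.row k (((zFD (X k) (G k)).l.am (frf f D k).l).p2.π w))) v =
      v ⬝ᵥ (rwm D (f.row k (((zFD (X k) (G k)).l.am (frf f D k).l).p2.π w)) *ᵥ v) := rfl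
  rw [h9, rwm_qf]
  have h10 := Finset.single_le_sum (f := fun j => (cfs D (f.row k (((zFD (X k) (G k)).l.am (frf f D k).l).p2.π w) j)
    ⬝ᵥ v) ^ 2) (fun j _ => sq_nonneg _) (Finset.mem_univ i)
  have h11 := dot_self_nonneg v
  have h12 : (cfs D (C (S.dl (La i) k)⁻¹ * inv (f.P k (((zFD (X k) (G k)).l.am (frf f D k).l).p2.π w)) i) ⬝ᵥ v) ^ 2 ≤
      ∑ j, (cfs D (f.row k (((zFD (X k) (G k)).l.am (frf f D k).l).p2.π w) j) ⬝ᵥ v) ^ 2 := h10
  linarith

/-- the value of a normalised coordinate at a point with a good chart -/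
theorem GdP.val {La : Fin M → ℝ} {d k : ℕ} {K T : ℝ} {A : Matrix (Mon M D) (Mon M D) ℝ}
    {p : Fin M → MvPolynomial (Fin M) ℝ} (h : GdP S La d k K T A p) (hD : (d + 1) ^ M ≤ D) (hA : Psd A) {T2 r : ℝ}
    (hT : 0 ≤ T) {x : Fin M → ℝ} (hx : phi r A x ≤ T2) (i : Fin M) :
    |(S.dl (La i) k)⁻¹ * eval x (inv p i)| ≤ T * T2 + 1 := by
  have hdg : (C (S.dl (La i) k)⁻¹ * inv p i).totalDegree ≤ D := by
    refine (totalDegree_mul _ _).trans ?_
    rw [totalDegree_C, zero_add]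
    exact (inv_deg (fun j => h.dg j) i).trans hD
  have h1 := h.dom i (vv x)
  have h2 : cfs D (C (S.dl (La i) k)⁻¹ * inv p i) ⬝ᵥ vv x = (S.dl (La i) k)⁻¹ * eval x (inv p i) := by
    rw [← eval_pol, pol_cfs _ hdg, map_mul, eval_C]
  rw [h2] at h1
  have h3 : qf A (vv x) ≤ phi r A x := by
    unfold phi
    have h4 := Finset.single_le_sum (f := fun j : Fin M → Fin (D + 1) => vv (D := D) (nodp D x r j) ⬝ᵥ
      (A *ᵥ vv (nodp D x r j))) (fun j _ => hA.2 _) (Finset.mem_univ (fun _ => 0))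
    have h5 : vv (D := D) (nodp D x r (fun _ => 0)) ⬝ᵥ (A *ᵥ vv (nodp D x r (fun _ => 0))) = qf A (vv x) := by
      rw [Pool.Agent.Helper36.AM.nodp_zero]
      rfl
    linarith
  have h6 : ((S.dl (La i) k)⁻¹ * eval x (inv p i)) ^ 2 ≤ T * T2 :=
    h1.trans (mul_le_mul_of_nonneg_left (h3.trans hx) hT)
  rw [← sq_abs] at h6
  nlinarith [abs_nonneg ((S.dl (La i) k)⁻¹ * eval x (inv p i)), sq_nonneg (|(S.dl (La i) k)⁻¹ * eval x (inv p i)| - 1)]

/-! ### functions of the classes -/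

section fin
variable {F : FSp} {β : Type}

open Classical in
/-- the value of `b` at a point with the property -/
def pkv (p : F.Ω → Prop) (b : F.Ω → β) : Option β := if h : ∃ ω, p ω then some (b h.choose) else none

/-- the value of `b` at a point of the support in the class -/
def stv (V : Setoid F.Ω) (b : F.Ω → β) (ω : F.Ω) : Option β := pkv (fun ω' => F.μ ω' ≠ 0 ∧ V ω ω') b

theorem stv_congr {V : Setoid F.Ω} (b : F.Ω → β) {ω ω' : F.Ω} (h : V ω ω') : stv V b ω = stv V b ω' := by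
  have e : (fun x => F.μ x ≠ 0 ∧ V ω x) = fun x => F.μ x ≠ 0 ∧ V ω' x := by
    funext x
    apply propext
    exact ⟨fun a => ⟨a.1, V.trans (V.symm h) a.2⟩, fun a => ⟨a.1, V.trans h a.2⟩⟩
  unfold stv
  rw [e]

theorem stv_supp {V : Setoid F.Ω} {b : F.Ω → β} (hb : ∀ ω ω', F.μ ω ≠ 0 → F.μ ω' ≠ 0 → V ω ω' → b ω = b ω')
    {ω : F.Ω} (hω : F.μ ω ≠ 0) : stv V b ω = some (b ω) := by
  classical
  have hex : ∃ ω', F.μ ω' ≠ 0 ∧ V ω ω' := ⟨ω, hω, V.refl ω⟩
  have h1 : stv V b ω = some (b hex.choose) := dif_pos hex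
  rw [h1, hb ω hex.choose hω hex.choose_spec.1 hex.choose_spec.2]

end fin

/-! ### the frame -/

/-- the optimal form is typically of moderate size at the point -/
theorem phi_typ {Q : S.VV M} {C' : LC S} {X : ∀ k, Setoid (S.F k).Ω} {A : κ → Part S}
    {G : ∀ k, (S.F k).Ω → Matrix (Mon M D) (Mon M D) ℝ} (hG : ∀ᶠ k in UF, Kn1 (X k) (G k))
    (hO : (gaq Q D).AdfK C' A (fun k => zFD (X k) (G k))) : ∃ K : ℕ → ℝ, S.Sub K ∧
      Typ (fun k ω => phi (S.dl 1 k) (G k ω) (Q.v k ω) ≤ K k) := by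
  apply Pool.Agent.Helper89.LX.typ_diag (fun k ω K => phi (S.dl 1 k) (G k ω) (Q.v k ω) ≤ K)
  intro η hη
  filter_upwards [hG, hO.1 η hη] with k g1 g2
  have h1 := g2.2.2.1
  have eg : (zFD (X k) (G k)).g = G k := zFD_g g1
  rw [eg] at h1
  exact h1

/-- the optimal form is positive on the support -/
theorem psd_sup {Q : S.VV M} {C' : LC S} {X : ∀ k, Setoid (S.F k).Ω} {A : κ → Part S}
    {G : ∀ k, (S.F k).Ω → Matrix (Mon M D) (Mon M D) ℝ} (hG : ∀ᶠ k in UF, Kn1 (X k) (G k))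
    (hO : (gaq Q D).AdfK C' A (fun k => zFD (X k) (G k))) : ∀ᶠ k in UF, ∀ ω, (S.F k).μ ω ≠ 0 → Psd (G k ω) := by
  filter_upwards [hG, hO.1 1 one_pos] with k g1 g2 ω hω
  have h1 := (g2.2.1 ω hω).1
  have eg : (zFD (X k) (G k)).g = G k := zFD_g g1
  rw [eg] at h1
  exact h1.psd

/-- **EVERY CARRIER HAS A FRAME**: `X` is a literal partition with an optimal K-form `G` of degree `D`; one K-label `l`
has a frame with the exponents `La` and charts of degree at most `d`, `(d + 1) ^ M <= D`. Then `X` together with `o(n)` bits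
(functions of `R` and the base) has a frame with the exponents `La` and charts of degree at most `d` -/
theorem frmin [Finite κ] {Q : S.VV M} {R X : ∀ k, Setoid (S.F k).Ω} {A : κ → Part S}
    {G : ∀ k, (S.F k).Ω → Matrix (Mon M D) (Mon M D) ℝ} (hR : KnS R Q.v) (hX : ∀ᶠ k in UF, R k ⊓ (S.F k).Z ≤ X k)
    (hG : ∀ᶠ k in UF, Kn1 (X k) (G k))
    (hO : (gaq Q D).OptfK (LC.kz fun k => fc (R k)) A (fun k => zFD (X k) (G k)))
    {l : Lab S} {La : Fin M → ℝ} (f : Frm Q l La) (hl : l.DMf A) (hC : (LC.kz fun k => fc (R k)).ev l)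
    (h0 : ∀ i, 0 ≤ La i) (h1 : ∀ i, La i ≤ 1) {d : ℕ} (hd : ∀ k ω j, (f.P k ω j).totalDegree ≤ d)
    (hD : (d + 1) ^ M ≤ D) : ∃ (W : ∀ k, Setoid (S.F k).Ω) (g : Frm Q (Lab.ofZ W) La),
      (∀ k ω j, (g.P k ω j).totalDegree ≤ d) ∧ (∀ᶠ k in UF, R k ⊓ (S.F k).Z ≤ W k) ∧ (∀ k, W k ≤ X k) ∧
      Nul S (fun k => h (fc (W k)) (fc (X k))) := by
  classical
  obtain ⟨K, hK, hk1⟩ := gd_typ hG hO f hl hC h0 h1 hd hD
  obtain ⟨T, hT, hk2⟩ := Pool.Agent.Helper89.LX.typ_diag (S := S) (fun k ω t => ∃ p, GdP S La d k (K k) t (G k ω) p)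
    (fun η hη => by
      filter_upwards [(hk1 η hη).eventually (gt_mem_nhds hη)] with k hk using hk.le)
  obtain ⟨K2, hK2, hk3⟩ := phi_typ hG hO.1
  have hpsd := psd_sup hG hO.1
  obtain ⟨KQ, hKQ, hbQ⟩ := Q.bd
  -- the good event and the charts
  obtain ⟨Ev, hEv⟩ : ∃ Ev : ∀ k, (S.F k).Ω → Prop, Ev = fun k ω => (∃ p, GdP S La d k (K k) (T k) (G k ω) p) ∧
    phi (S.dl 1 k) (G k ω) (Q.v k ω) ≤ K2 k := ⟨_, rfl⟩
  have hTyp : Typ Ev := by
    rw [hEv]
    exact hk2.and hk3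
  obtain ⟨ch, hch⟩ : ∃ ch : ∀ k, Matrix (Mon M D) (Mon M D) ℝ → Fin M → MvPolynomial (Fin M) ℝ, ∀ k B,
      (∃ p, GdP S La d k (K k) (T k) B p) → GdP S La d k (K k) (T k) B (ch k B) :=
    ⟨fun k B => if h : ∃ p, GdP S La d k (K k) (T k) B p then h.choose else fun _ => 0, fun k B hB => by
      have e : (if h : ∃ p, GdP S La d k (K k) (T k) B p then h.choose else fun _ => 0) = hB.choose := dif_pos hB
      show GdP S La d k (K k) (T k) B (if h : ∃ p, GdP S La d k (K k) (T k) B p then h.choose else fun _ => 0)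
      rw [e]
      exact hB.choose_spec⟩
  obtain ⟨P, hP⟩ : ∃ P : ∀ k, (S.F k).Ω → Fin M → MvPolynomial (Fin M) ℝ, P = fun k ω => if Ev k ω then ch k (G k ω)
    else fun j => C (S.dl 1 k * (Q.cellv 1 k ω j : ℝ)) := ⟨_, rfl⟩
  have hPg : ∀ k ω, Ev k ω → P k ω = ch k (G k ω) := fun k ω h => by rw [hP]; exact if_pos h
  have hPb : ∀ k ω, ¬ Ev k ω → P k ω = fun j => C (S.dl 1 k * (Q.cellv 1 k ω j : ℝ)) := fun k ω h => by
    rw [hP]; exact if_neg h
  have hGd : ∀ k ω, Ev k ω → GdP S La d k (K k) (T k) (G k ω) (ch k (G k ω)) := fun k ω h => by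
    apply hch
    rw [hEv] at h
    exact h.1
  have hph : ∀ k ω, Ev k ω → phi (S.dl 1 k) (G k ω) (Q.v k ω) ≤ K2 k := fun k ω h => by
    rw [hEv] at h
    exact h.2
  -- the marks
  obtain ⟨b, hb⟩ : ∃ b : ∀ k, (S.F k).Ω → Option (Fin M → ℤ), b = fun k ω => if Ev k ω then none
    else some (Q.cellv 1 k ω) := ⟨_, rfl⟩
  have hbg : ∀ k ω, Ev k ω → b k ω = none := fun k ω h => by rw [hb]; exact if_pos h
  have hbb : ∀ k ω, ¬ Ev k ω → b k ω = some (Q.cellv 1 k ω) := fun k ω h => by rw [hb]; exact if_neg h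
  have hbk : ∀ᶠ k in UF, ∀ ω ω', (S.F k).μ ω ≠ 0 → (S.F k).μ ω' ≠ 0 → (R k ⊓ (S.F k).Z) ω ω' → b k ω = b k ω' := by
    filter_upwards [hR, hX, hG] with k a1 a2 a3 ω ω' c1 c2 c3
    have e1 : Q.v k ω = Q.v k ω' := a1 ω ω' c1 c2 c3.2 c3.1
    have e2 : G k ω = G k ω' := a3 ω ω' c1 c2 (a2 c3) c3.2
    have e3 : Ev k ω ↔ Ev k ω' := by
      rw [hEv]
      show _ ∧ _ ↔ _ ∧ _
      rw [e1, e2]
    have e4 : Q.cellv 1 k ω = Q.cellv 1 k ω' := by
      unfold VV.cellv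
      rw [e1]
    by_cases hE : Ev k ω
    · rw [hbg k ω hE, hbg k ω' (e3.1 hE)]
    · rw [hbb k ω hE, hbb k ω' (fun h => hE (e3.2 h)), e4]
  obtain ⟨W, hW⟩ : ∃ W : ∀ k, Setoid (S.F k).Ω, W = fun k => X k ⊓ Setoid.ker (stv (R k ⊓ (S.F k).Z) (b k)) :=
    ⟨_, rfl⟩
  have hWX : ∀ k, W k ≤ X k := fun k => by rw [hW]; exact inf_le_left
  have hWR : ∀ᶠ k in UF, R k ⊓ (S.F k).Z ≤ W k := by
    filter_upwards [hX] with k hk
    rw [hW]
    exact le_inf hk fun ω ω' h => stv_congr (b k) h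
  have hWb : ∀ᶠ k in UF, ∀ ω ω', (S.F k).μ ω ≠ 0 → (S.F k).μ ω' ≠ 0 → W k ω ω' → b k ω = b k ω' := by
    filter_upwards [hbk] with k hk ω ω' c1 c2 c3
    rw [hW] at c3
    have e1 : stv (R k ⊓ (S.F k).Z) (b k) ω = stv (R k ⊓ (S.F k).Z) (b k) ω' := c3.2
    rw [stv_supp hk c1, stv_supp hk c2] at e1
    exact Option.some.inj e1
  -- the point of the frame
  obtain ⟨xv, hxv⟩ : ∃ xv : ∀ k, (S.F k).Ω → Fin M → ℝ, xv = fun k ω i => if Ev k ω then
    (S.dl (La i) k)⁻¹ * eval (Q.v k ω) (inv (P k ω) i) else 0 := ⟨_, rfl⟩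
  have hxg : ∀ k ω, Ev k ω → ∀ i, xv k ω i = (S.dl (La i) k)⁻¹ * eval (Q.v k ω) (inv (P k ω) i) :=
    fun k ω h i => by rw [hxv]; exact if_pos h
  have hxb : ∀ k ω, ¬ Ev k ω → ∀ i, xv k ω i = 0 := fun k ω h i => by rw [hxv]; exact if_neg h
  have hTK : S.Sub fun k => T k * K2 k + 1 := (hT.mul hK2).add (S.Sub_const zero_le_one)
  have hxbd : ∀ᶠ k in UF, ∀ ω, (S.F k).μ ω ≠ 0 → ∀ i, |xv k ω i| ≤ T k * K2 k + 1 := by
    filter_upwards [hpsd, hT.1, hTK.1] with k a1 a2 a3 ω hω i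
    by_cases hE : Ev k ω
    · rw [hxg k ω hE, hPg k ω hE]
      exact (hGd k ω hE).val hD (a1 ω hω) a2 (hph k ω hE) i
    · rw [hxb k ω hE, abs_zero]
      exact a3
  have hCdeg : ∀ k ω, ¬ Ev k ω → ∀ j, ∀ a ∈ (P k ω j).support, a = 0 := by
    intro k ω hE j a ha
    rw [hPb k ω hE] at ha
    by_contra hne
    apply MvPolynomial.mem_support_iff.1 ha
    show coeff a (C (S.dl 1 k * (Q.cellv 1 k ω j : ℝ))) = 0
    rw [coeff_C, if_neg (fun h => hne h.symm)]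
  refine ⟨W, ⟨⟨xv, ?_⟩, P, ?_, ?_, ?_, ?_, ?_⟩, ?_, hWR, hWX, ?_⟩
  · exact ⟨_, (sp_Sub _).mpr hTK, hxbd⟩
  · intro k ω j i hi
    by_cases hE : Ev k ω
    · rw [hPg k ω hE] at hi
      exact (hGd k ω hE).tri j i hi
    · rw [hPb k ω hE, vars_C] at hi
      exact absurd hi (Finset.notMem_empty i)
  · intro k ω j a ha hne
    by_cases hE : Ev k ω
    · rw [hPg k ω hE] at ha
      exact (hGd k ω hE).red j a ha hne
    · exact absurd (hCdeg k ω hE j a ha) hne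
  · filter_upwards [hWb, hG] with k a1 a2 ω ω' c1 c2 c3 c4
    have c4' : W k ω ω' := c4
    have e1 := a1 ω ω' c1 c2 c4'
    by_cases hE : Ev k ω
    · have hE' : Ev k ω' := by
        by_contra h
        rw [hbg k ω hE, hbb k ω' h] at e1
        exact absurd e1 (by simp)
      rw [hPg k ω hE, hPg k ω' hE', a2 ω ω' c1 c2 (hWX k c4') c3]
    · have hE' : ¬ Ev k ω' := by
        intro h
        rw [hbb k ω hE, hbg k ω' h] at e1
        exact absurd e1 (by simp)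
      rw [hbb k ω hE, hbb k ω' hE'] at e1
      rw [hPb k ω hE, hPb k ω' hE', Option.some.inj e1]
  · refine ⟨fun k => K k + (KQ k + 1), hK.add (hKQ.add (S.Sub_const zero_le_one)), ?_⟩
    filter_upwards [hK.1, hKQ.1, hbQ] with k a1 a2 a3 ω hω j a
    by_cases hE : Ev k ω
    · rw [hPg k ω hE]
      have := (hGd k ω hE).cf j a
      linarith
    · rw [hPb k ω hE]
      show |coeff a (C (S.dl 1 k * (Q.cellv 1 k ω j : ℝ)))| ≤ _
      rw [coeff_C]
      split_ifs with h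
      · have hδ := S.dl_pos 1 k
        have h2 := Int.floor_le (Q.v k ω j / S.dl 1 k)
        have h3 := Int.lt_floor_add_one (Q.v k ω j / S.dl 1 k)
        have h4 : S.dl 1 k * (Q.v k ω j / S.dl 1 k) = Q.v k ω j := by field_simp
        have h5 := mul_le_mul_of_nonneg_left h2 hδ.le
        have h6 := mul_le_mul_of_nonneg_left h3.le hδ.le
        rw [h4] at h5 h6
        have h7 := abs_le.1 (a3 ω hω j)
        have h8 : S.dl 1 k ≤ 1 := (S.dl_anti zero_le_one k).trans (le_of_eq (S.dl_zero k))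
        have e1 : ((Q.cellv 1 k ω j : ℤ) : ℝ) = (⌊Q.v k ω j / S.dl 1 k⌋ : ℝ) := rfl
        rw [e1, abs_le]
        constructor <;> nlinarith
      · rw [abs_zero]
        positivity
  · refine ⟨fun _ => 1, S.Sub_const zero_le_one, Eventually.of_forall fun k ω hω j => ?_⟩
    have hδ := S.dl_pos 1 k
    show |Q.v k ω j - (eval (fun i => S.dl (La i) k * xv k ω i) (P k ω j) + S.dl (La j) k * xv k ω j)| ≤ _
    by_cases hE : Ev k ω
    · have e0 : ∀ i, S.dl (La i) k * xv k ω i = eval (Q.v k ω) (inv (P k ω) i) := fun i => by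
        rw [hxg k ω hE, ← mul_assoc, mul_inv_cancel₀ (S.dl_pos _ _).ne', one_mul]
      rw [funext e0, e0 j]
      have e1 := inv_eval (P := P k ω) (fun j i hi => by
        rw [hPg k ω hE] at hi
        exact (hGd k ω hE).tri j i hi) (Q.v k ω) j
      rw [e1]
      have e2 : Q.v k ω j - (eval (fun i => eval (Q.v k ω) (inv (P k ω) i)) (P k ω j) +
        (Q.v k ω j - eval (fun i => eval (Q.v k ω) (inv (P k ω) i)) (P k ω j))) = 0 := by ring
      rw [e2, abs_zero]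
      linarith
    · rw [hxb k ω hE, hPb k ω hE]
      show |Q.v k ω j - (eval _ (C (S.dl 1 k * (Q.cellv 1 k ω j : ℝ))) + S.dl (La j) k * 0)| ≤ _
      rw [eval_C, mul_zero, add_zero]
      have h2 := Int.floor_le (Q.v k ω j / S.dl 1 k)
      have h3 := Int.lt_floor_add_one (Q.v k ω j / S.dl 1 k)
      have h4 : S.dl 1 k * (Q.v k ω j / S.dl 1 k) = Q.v k ω j := by field_simp
      have h5 := mul_le_mul_of_nonneg_left h2 hδ.le
      have h6 := mul_le_mul_of_nonneg_left h3.le hδ.le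
      rw [h4] at h5 h6
      have e1 : ((Q.cellv 1 k ω j : ℤ) : ℝ) = (⌊Q.v k ω j / S.dl 1 k⌋ : ℝ) := rfl
      rw [e1, abs_le]
      constructor <;> nlinarith
  · intro k ω j
    by_cases hE : Ev k ω
    · show (P k ω j).totalDegree ≤ d
      rw [hPg k ω hE]
      exact (hGd k ω hE).dg j
    · show (P k ω j).totalDegree ≤ d
      rw [hPb k ω hE, totalDegree_C]
      exact Nat.zero_le _
  · have hcmp : ∀ᶠ k in UF, ∀ ω ω', (S.F k).μ ω ≠ 0 → (S.F k).μ ω' ≠ 0 → b k ω = b k ω' → X k ω ω' → W k ω ω' := by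
      filter_upwards [hbk] with k hk ω ω' c1 c2 c3 c4
      rw [hW]
      refine ⟨c4, ?_⟩
      show stv (R k ⊓ (S.F k).Z) (b k) ω = stv (R k ⊓ (S.F k).Z) (b k) ω'
      rw [stv_supp hk c1, stv_supp hk c2, c3]
    apply Pool.Agent.Helper81.AD.PLe_of_typ (P := fun k => fc (W k)) (R := fun k => fc (X k)) hTyp
    · apply PLe_of_ev
      filter_upwards [hcmp, pb_ne_zero (Sp.ul_pr_typ_pos Ev hTyp)] with k a1 a2
      show (fc (F := (S.F k).rest (Ev k)) (W k)) ≤ fc (F := (S.F k).rest (Ev k)) (X k)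
      apply fc_le
      intro ω ω' c1 c2 _ c4
      have d1 := (S.F k).rest_supp (Ev k) ω c1
      have d2 := (S.F k).rest_supp (Ev k) ω' c2
      exact a1 ω ω' d1.1 d2.1 (by rw [hbg k ω (d1.2 a2), hbg k ω' (d2.2 a2)]) c4
    · obtain ⟨c, hc⟩ := pcd_Bd (Q.rest fun k ω => ¬ Ev k ω)
      refine ⟨c, ?_⟩
      filter_upwards [hc, hcmp] with k a1 a2 a3
      have h2 : (fc (F := (S.F k).rest fun ω => ¬ Ev k ω) (W k)) ≤ fc (F := (S.F k).rest fun ω => ¬ Ev k ω) (X k) ⊔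
          pcd (Q.rest fun k ω => ¬ Ev k ω) k := by
        have e1 : (fc (F := (S.F k).rest fun ω => ¬ Ev k ω) (X k)) ⊔ pcd (Q.rest fun k ω => ¬ Ev k ω) k =
          fc (F := (S.F k).rest fun ω => ¬ Ev k ω) (X k ⊓ Setoid.ker ((Q.rest fun k ω => ¬ Ev k ω).cellv 1 k)) :=
          (fc_inf _ _).symm
        rw [e1]
        apply fc_le
        intro ω ω' c1 c2 _ c4
        have d1 := (S.F k).rest_supp _ ω c1
        have d2 := (S.F k).rest_supp _ ω' c2
        have e2 : Q.cellv 1 k ω = Q.cellv 1 k ω' := c4.2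
        exact a2 ω ω' d1.1 d2.1 (by rw [hbb k ω (d1.2 a3), hbb k ω' (d2.2 a3), e2]) c4.1
      have h3 : h ((S.F k).rmap (fun ω => ¬ Ev k ω) (fc (W k))) ((S.F k).rmap (fun ω => ¬ Ev k ω) (fc (X k))) ≤
          H (pcd (Q.rest fun k ω => ¬ Ev k ω) k) := by
        refine (h_mono h2).trans ?_
        refine (h_sup_le _ _ _).trans ?_
        have h4 : h (fc (F := (S.F k).rest fun ω => ¬ Ev k ω) (X k)) ((S.F k).rmap (fun ω => ¬ Ev k ω) (fc (X k))) = 0 :=
          h_self _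
        rw [h4, zero_add]
        exact h_le_H _ _
      have h5 : H (pcd (Q.rest fun k ω => ¬ Ev k ω) k) / (S.F k).n ≤ c := (le_abs_self _).trans a1
      rw [div_le_iff₀ (S.F k).pos] at h5
      exact h3.trans h5

end

end Pool.Agent.Helper48.ROK
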