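import Pool.Agent.Helper48.ROK.Rw
import Pool.Agent.Helper48.ROW.Main
import Pool.Agent.Helper85.FRG.Car

/-! ROWS OF K-LABELS (3): the rows `RowD s R c j (w_j c)` (helper85) at the window `c`, from the volumes of the prefixes at
the window `c` (K-admissible forms of the prefixes `x_0, .., x_j`), the volumes on events and the lower numbers on events. -/

set_option autoImplicit false

namespace Pool.Agent.Helper48.ROK

open Finset Filter Topology Matrix Pool.Agent.Helper69.RK Pool.Agent.Helper31.EC Pool.Agent.Helper31.EC.Sp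
open Pool.Agent.Helper40.EL Pool.Agent.Helper89.LX Pool.Agent.Helper3.LF Pool.Agent.Helper84.MT Pool.Agent.Helper89.RAT
open Pool.Agent.Helper89.RAK (Lit KC addW_kz)
open Pool.Agent.Helper36.AM (Frm)
open Pool.Agent.Helper85.FRM (pre Knw)
open Pool.Agent.Helper85.FRG (RowD Car frtd exists_car lit_bd lit_kns Car.jn Rf.right Rf.h_le)
open Pool.Agent.Helper52.GF (scw)
open Pool.Agent.Helper48.ROW

noncomputable section

variable {S T : Sp} {M N D : ℕ} {E : ℕ → ℕ} {ι κ : Type} {s : MSys S M E ι} {R : ∀ k, Setoid (S.F k).Ω}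

/-- the conditions on events -/
theorem scw_im (s : MSys S M E ι) (R : ∀ k, Setoid (S.F k).Ω) (c : ℝ) (p : Pj T S) (A : ∀ k, (T.F k).Ω → Prop)
    (hA : 0 < ul (T.pr A)) : scw (s.im p A hA) (fun k => fc (R k)) c = fun i => (scw s (fun k => fc (R k)) c i).im p A := by
  funext i
  rcases i with _ | i
  · rfl
  · rfl

/-- THE ROW of the coordinates `σ` from typical exponents -/
theorem row_of (hR : Lit R s.Q) (hD : 1 ≤ D) {c θ : ℝ} (σ : Fin N → Fin M) (hσ : Function.Injective σ)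
    (z : Fin N) (hz : ∀ a, σ a ≤ σ z) {Q' : S.VV N} (hQ' : ∀ k ω a, Q'.v k ω a = s.Q.v k ω (σ a))
    {x : ∀ k, FD (S.F k) (Mon N D)} (hx : (gaq Q' D).AdfK (KC R) (scw s (fun k => fc (R k)) c) x)
    (hθ : ∀ e : ℝ, 0 < e → Sp.Typ (S := (lb x).sp) fun k (ω : (x k).l.T.Ω) =>
      θ - e ≤ xz Q' z k ((x k).l.p.π ω) ((x k).g ω)) : RowD s R c (σ z) θ := by
  obtain ⟨f, p, K, hdeg, hmeas, hix, hK, hT⟩ := rows_exK hD hx.1 hθ
  have hQR : ∀ k (ω ω' : (S.F k).Ω), R k ω ω' → Q'.v k ω = Q'.v k ω' := by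
    intro k ω ω' r
    have h1 : s.Q.v k ω = s.Q.v k ω' := hR k r
    funext a
    rw [hQ', hQ', h1]
  have hev : ∀ k (ω : (x k).l.T.Ω) (q : MvPolynomial (Fin N) ℝ),
      MvPolynomial.eval (s.Q.v k ((x k).l.p.π ω)) (sb σ 1 (fun _ => 0) q) =
      MvPolynomial.eval (Q'.v k ((x k).l.p.π ω)) q := by
    intro k ω q
    rw [eval_sb]
    congr 1
    have e1 : (fun a => (1 : ℝ) * s.Q.v k ((x k).l.p.π ω) (σ a) + (fun _ => 0 : Fin N → ℝ) a) =
        Q'.v k ((x k).l.p.π ω) := by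
      funext a
      rw [hQ', one_mul, add_zero]
    rw [e1]
  have hev2 : ∀ k (ω : (x k).l.T.Ω) (q : MvPolynomial (Fin N) ℝ),
      MvPolynomial.eval (s.Q.v k ((x k).l.p.π ω)) (MvPolynomial.pderiv (σ z) (sb σ 1 (fun _ => 0) q)) =
      MvPolynomial.eval (Q'.v k ((x k).l.p.π ω)) (MvPolynomial.pderiv z q) := by
    intro k ω q
    rw [pderiv_sb 1 (fun _ => 0) hσ z, map_mul, MvPolynomial.eval_C, one_mul, hev]
  refine ⟨D, (lb x).addW fun k => pIx (f k), fun k (ω : (x k).l.T.Ω) => sb σ 1 (fun _ => 0) (p k ω),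
    DMf_pIx (Gau.Adf.dm _ hx.1) f, ?_, fun k ω => sb_deg _ _ _ _ _ (hdeg k ω), ?_, ?_, K, hK, ?_⟩
  · filter_upwards [hx.2] with k hk
    refine addW_kz (x k).l (pIx (f k)) (R k) hk fun ω ω' a b c d r => ?_
    have h1 := hix k ω ω' a b c d (hQR k _ _ r)
    show (fun _ : Fin 1 => (cIx (f k ω) : ℤ)) = fun _ : Fin 1 => (cIx (f k ω') : ℤ)
    rw [h1]
  · intro k ω a ha
    obtain ⟨b, rfl⟩ := sb_vars _ _ _ _ _ ha
    exact hz b
  · refine Eventually.of_forall fun k ω ω' a b c d => ?_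
    have h1 := hmeas k ω ω' a b d.1 c (pIx_eq d.2)
    beta_reduce
    rw [h1]
  · refine typ_mono (S := (lb x).sp) (E := fun k (ω : (x k).l.T.Ω) =>
      |MvPolynomial.eval (Q'.v k ((x k).l.p.π ω)) (p k ω)| ≤ K k ∧ 2 ^ (θ * (S.F k).n) ≤ K k *
        |MvPolynomial.eval (Q'.v k ((x k).l.p.π ω)) (MvPolynomial.pderiv z (p k ω))|) hT ?_
    refine Eventually.of_forall fun k ω _ hh => ?_
    obtain ⟨h1, h2⟩ := hh
    constructor
    · exact (congrArg (fun t : ℝ => |t| ≤ K k) (hev k ω (p k ω))).mpr h1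
    · exact (congrArg (fun t : ℝ => (2 : ℝ) ^ (θ * (S.F k).n) ≤ K k * |t|) (hev2 k ω (p k ω))).mpr h2

/-! ### numbers -/

/-- the cells of a prefix -/
theorem pre_eq {Q : S.VV M} (hN : N ≤ M) {P : S.VV N} (hP : ∀ k ω a, P.v k ω a = Q.v k ω (Fin.castLE hN a)) (k : ℕ) :
    pre Q N k = fc (Setoid.ker (P.cellv 1 k)) := by
  have e1 : Setoid.ker (fun ω (i : Fin M) => if i.val < N then Q.cellv 1 k ω i else 0) =
      Setoid.ker (P.cellv 1 k) := by
    apply Setoid.ext
    intro ω ω'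
    have hc : ∀ ω a, P.cellv 1 k ω a = Q.cellv 1 k ω (Fin.castLE hN a) := by
      intro ω a
      show ⌊P.v k ω a / S.dl 1 k⌋ = ⌊Q.v k ω (Fin.castLE hN a) / S.dl 1 k⌋
      rw [hP]
    rw [Setoid.ker_def, Setoid.ker_def]
    constructor
    · intro h
      funext a
      rw [hc, hc]
      have h1 := congrFun h (Fin.castLE hN a)
      have h2 : (Fin.castLE hN a).val < N := a.2
      simp only [h2, if_true] at h1
      exact h1
    · intro h
      funext i
      by_cases hi : i.val < N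
      · have h1 := congrFun h ⟨i.val, hi⟩
        rw [hc, hc] at h1
        simp only [hi, if_true]
        exact h1
      · simp only [hi, if_false]
  show fc (Setoid.ker fun ω (i : Fin M) => if i.val < N then Q.cellv 1 k ω i else 0) = _
  rw [e1]

/-- lower numbers -/
theorem H_low {Q : S.VV M} (hN : N ≤ M) {P : S.VV N} (hP : ∀ k ω a, P.v k ω a = Q.v k ω (Fin.castLE hN a)) (l : Lab S)
    {v : ℝ} (h : v ≤ ul (fun k => h ((l k).p.map (pre Q N k)) (l k).v / (S.F k).n)) : v ≤ H (up1 l (P.dg 1)) := by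
  have e1 : P.dg 1 = cl (P.bdd 1).toInf := io_eq (P.bdd 1)
  rw [e1, H_up1_cl]
  refine h.trans (le_of_eq ?_)
  congr 1
  funext k
  rw [pre_eq hN hP k]
  rfl

/-- LOWER NUMBERS of the prefixes over all K-labels of the window `c`, on all events of all extensions -/
def LowK (s : MSys S M E ι) (R : ∀ k, Setoid (S.F k).Ω) (c : ℝ) (w : Fin M → ℝ) : Prop :=
  ∀ (T : Sp) (p : Pj T S) (A : ∀ k, (T.F k).Ω → Prop) (hA : 0 < ul (T.pr A)) (l : Lab (Sp.im p A)),
    l.DMf (scw (s.im p A hA) (fun k => fc (R k)) c) → (KC (S := Sp.im p A) R).ev l → ∀ j : Fin M,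
      (∑ i : Fin M, if i < j then 1 - w i * c else 0) ≤
        ul (fun k => h ((l k).p.map (pre (s.im p A hA).Q j.val k)) (l k).v / ((Sp.im p A).F k).n)

/-- NUMBERS of the prefixes over all carriers of the window `c`, on all events of all extensions -/
def NumC (s : MSys S M E ι) (R : ∀ k, Setoid (S.F k).Ω) (c : ℝ) (w : Fin M → ℝ) : Prop :=
  ∀ (T : Sp) (p : Pj T S) (A : ∀ k, (T.F k).Ω → Prop) (hA : 0 < ul (T.pr A)) (l : Lab (Sp.im p A)),
    Car (s.im p A hA) R (fun k => fc (R k)) c l → ∀ j : Fin M,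
      Tendsto (fun k => h ((l k).p.map (pre (s.im p A hA).Q j.val k)) (l k).v / ((Sp.im p A).F k).n) UF
        (𝓝 (∑ i : Fin M, if i < j then 1 - w i * c else 0))

/-- VOLUMES at the window `c`: the prefixes over the space, the point over the space and on all events -/
structure VolC (s : MSys S M E ι) (R : ∀ k, Setoid (S.F k).Ω) (D : ℕ) (c : ℝ) (w : Fin M → ℝ) : Prop where
  pre : ∀ j : Fin M, j.val + 1 < M → ∃ (Q' : S.VV (j.val + 1)) (y : ∀ k, FD (S.F k) (Mon (j.val + 1) D)),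
    (∀ k ω a, Q'.v k ω a = s.Q.v k ω (Fin.castLE j.isLt a)) ∧
      (gaq Q' D).AdfK (KC R) (scw s (fun k => fc (R k)) c) y ∧ vol Q' D y ≤ ∑ i : Fin M, if i ≤ j then 1 - w i * c else 0
  all : ∃ y : ∀ k, FD (S.F k) (Mon M D), (gaq s.Q D).AdfK (KC R) (scw s (fun k => fc (R k)) c) y ∧
    vol s.Q D y ≤ ∑ i : Fin M, (1 - w i * c)
  low : ∀ (T : Sp) (p : Pj T S) (A : ∀ k, (T.F k).Ω → Prop) (hA : 0 < ul (T.pr A))
    (y : ∀ k, FD ((Sp.im p A).F k) (Mon M D)),
      (gaq (s.im p A hA).Q D).AdfK (KC (S := Sp.im p A) R) (scw (s.im p A hA) (fun k => fc (R k)) c) y →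
        (∑ i : Fin M, (1 - w i * c)) ≤ vol (s.im p A hA).Q D y

/-- the prefix of a point -/
def pvv (Q : S.VV M) (hN : N ≤ M) : S.VV N where
  v := fun k ω a => Q.v k ω (Fin.castLE hN a)
  bd := by
    obtain ⟨K, hK, hb⟩ := Q.bd
    refine ⟨K, hK, ?_⟩
    filter_upwards [hb] with k hk ω hω i
    exact hk ω hω _

/-- the entropies of a prefix are bounded -/
theorem pre_UB (Q : S.VV M) (hN : N ≤ M) (l : Lab S) :
    UB (fun k => h ((l k).p.map (pre Q N k)) (l k).v / (S.F k).n) := by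
  set P : S.VV N := pvv Q hN with hP
  have e1 : (fun k => Pool.Agent.Helper31.EC.h ((l k).p.map (pre Q N k)) (l k).v / (S.F k).n) =
      fun k => Pool.Agent.Helper31.EC.h ((l k).p.map (rpI (P.bdd 1).toInf k)) (l k).v / (S.F k).n := by
    funext k
    rw [pre_eq hN (P := P) (fun k ω a => rfl) k]
    rfl
  rw [e1]
  have h2 : UB (fun k => Pool.Agent.Helper31.EC.H (rpI (P.bdd 1).toInf k) / (S.F k).n) := pcd_Bd P
  refine UB.sandwich (UB_const 0) h2 (Eventually.of_forall fun k => div_nonneg (h_nonneg _ _) (S.F k).pos.le)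
    (Eventually.of_forall fun k => ?_)
  refine div_le_div_of_nonneg_right ?_ (S.F k).pos.le
  refine (h_le_H _ _).trans (le_of_eq ?_)
  exact (l k).p.H_map _

/-- joins of labels: entropies -/
theorem pre_jn (Q : S.VV M) (hN : N ≤ M) (l l' : Lab S) {v : ℝ}
    (ht : Tendsto (fun k => h (((l'.join l) k).p.map (pre Q N k)) ((l'.join l) k).v / (S.F k).n) UF (𝓝 v)) :
    v ≤ ul (fun k => h ((l k).p.map (pre Q N k)) (l k).v / (S.F k).n) := by
  rw [← ul_eq ht]
  refine ul_mono (UB_of_tendsto ht) (pre_UB Q hN l) (Eventually.of_forall fun k => ?_)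
  exact div_le_div_of_nonneg_right ((Rf.right (l' k) (l k)).h_le _) (S.F k).pos.le

/-- lower numbers from the numbers of the carriers -/
theorem low_of_num [Finite ι] (hR : Lit R s.Q) {c : ℝ} {w : Fin M → ℝ} (h : NumC s R c w) : LowK s R c w := by
  intro T p A hA l hl hC j
  have hR' : Lit (S := Sp.im p A) R (s.im p A hA).Q := hR
  obtain ⟨l', hl'⟩ := exists_car (s := s.im p A hA) (lit_bd (lit_kns hR')) (lit_kns hR') c
  exact pre_jn (s.im p A hA).Q j.isLt.le l l' (h T p A hA _ (hl'.jn hl hC) j)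

end

end Pool.Agent.Helper48.ROK
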