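import Pool.Agent.Helper48.ROK.Ev

/-! ROWS OF K-LABELS (2): from typical exponents to a polynomial; the index of the row is a function of the form and of
the point, so the label with the index is a K-label. -/

set_option autoImplicit false

namespace Pool.Agent.Helper48.ROK

open Finset Filter Topology Matrix Pool.Agent.Helper69.RK Pool.Agent.Helper31.EC Pool.Agent.Helper31.EC.Sp
open Pool.Agent.Helper40.EL Pool.Agent.Helper89.LX Pool.Agent.Helper3.LF Pool.Agent.Helper84.MT Pool.Agent.Helper89.RAT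
open Pool.Agent.Helper89.RAK (Lit KC addW_kz)
open Pool.Agent.Helper48.ROW
open Pool.Agent.Helper95.LF (PdM)

noncomputable section

variable {S : Sp} {M D : ℕ} {κ : Type}

/-- the index of the row: a function of the factor and of the point -/
theorem ix_ex (r : ℝ) (hr : 0 < r) (z : Fin M) (C : Matrix (Mon M D) (Mon M D) ℝ) (q : Fin M → ℝ) :
    ∃ i : Ix M D, Jq r (C.transpose * C) q z z ≤ cR M D * (MvPolynomial.eval q
        (MvPolynomial.pderiv z (pw r C i.1 i.2.1))) ^ 2 := by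
  obtain ⟨a, w, hw, h1⟩ := row_ex r hr C q z
  exact ⟨(a, ⟨w, hw⟩), h1⟩

/-- the index of the row -/
def ix (r : ℝ) (hr : 0 < r) (z : Fin M) (C : Matrix (Mon M D) (Mon M D) ℝ) (q : Fin M → ℝ) : Ix M D :=
  (ix_ex r hr z C q).choose

theorem ix_spec (r : ℝ) (hr : 0 < r) (z : Fin M) (C : Matrix (Mon M D) (Mon M D) ℝ) (q : Fin M → ℝ) :
    Jq r (C.transpose * C) q z z ≤ cR M D * (MvPolynomial.eval q (MvPolynomial.pderiv z
      (pw r C (ix r hr z C q).1 (ix r hr z C q).2.1))) ^ 2 := (ix_ex r hr z C q).choose_spec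

/-- THE ROW: an admissible form whose exponent in the direction `z` is typically at least `θ`; the index is a function of
the form and of the point -/
theorem rows_exK {A : κ → Part S} {Q : S.VV M} {z : Fin M} (hD : 1 ≤ D) {x : ∀ k, FD (S.F k) (Mon M D)}
    (hx : (gaq Q D).Adf A x) {θ : ℝ} (hθ : ∀ e : ℝ, 0 < e → Sp.Typ (S := (lb x).sp) fun k (ω : (x k).l.T.Ω) =>
      θ - e ≤ xz Q z k ((x k).l.p.π ω) ((x k).g ω)) :
    ∃ (f : ∀ k, (x k).l.T.Ω → Ix M D) (p : ∀ k, (x k).l.T.Ω → MvPolynomial (Fin M) ℝ) (K : ℕ → ℝ),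
      (∀ k ω, (p k ω).totalDegree ≤ D) ∧
      (∀ k ω ω', (x k).l.T.μ ω ≠ 0 → (x k).l.T.μ ω' ≠ 0 → (x k).l.V ω ω' → (x k).l.T.Z ω ω' → f k ω = f k ω' →
        p k ω = p k ω') ∧
      (∀ k ω ω', (x k).l.T.μ ω ≠ 0 → (x k).l.T.μ ω' ≠ 0 → (x k).l.V ω ω' → (x k).l.T.Z ω ω' →
        Q.v k ((x k).l.p.π ω) = Q.v k ((x k).l.p.π ω') → f k ω = f k ω') ∧
      S.Sub K ∧ Sp.Typ (S := (lb x).sp) fun k (ω : (x k).l.T.Ω) =>
          |MvPolynomial.eval (Q.v k ((x k).l.p.π ω)) (p k ω)| ≤ K k ∧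
          2 ^ (θ * (S.F k).n) ≤ K k *
            |MvPolynomial.eval (Q.v k ((x k).l.p.π ω)) (MvPolynomial.pderiv z (p k ω))| := by
  classical
  set f : ∀ k, (x k).l.T.Ω → Ix M D := fun k ω =>
    ix (S.dl 1 k) (S.dl_pos 1 k) z (fac ((x k).g ω)) (Q.v k ((x k).l.p.π ω)) with hfdef
  have hf : ∀ k (ω : (x k).l.T.Ω), Jq (S.dl 1 k) ((fac ((x k).g ω)).transpose * fac ((x k).g ω))
      (Q.v k ((x k).l.p.π ω)) z z ≤ cR M D * (MvPolynomial.eval (Q.v k ((x k).l.p.π ω))
        (MvPolynomial.pderiv z (pw (S.dl 1 k) (fac ((x k).g ω)) (f k ω).1 (f k ω).2.1))) ^ 2 :=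
    fun k ω => ix_spec (S.dl 1 k) (S.dl_pos 1 k) z (fac ((x k).g ω)) (Q.v k ((x k).l.p.π ω))
  obtain ⟨K1, hK1, hT1⟩ := Pool.Agent.Helper14.MC.adf_sub hx
  -- the lower bound of the gradient
  obtain ⟨K2, hK2, hK2', hT2⟩ := typ_sub_ge (S := (lb x).sp)
    (fun k (ω : (x k).l.T.Ω) => Jz Q z k ((x k).l.p.π ω) ((x k).g ω)) (2 * θ) (fun e he => by
      have he2 : 0 < e / 2 := by linarith
      refine typ_mono (hθ (e / 2) he2) ?_
      filter_upwards [hx 1 one_pos] with k hk ω hω h1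
      have hn : (((lb x).sp).F k).n = (S.F k).n := sp_n (lb x) k
      have hn0 := (S.F k).pos
      have hc := (hk.2.1 ω hω).1
      have h2 := one_le_Jz Q z k ((x k).l.p.π ω) (fun v => hc.psd.2 v)
      unfold xz at h1
      rw [le_div_iff₀ (by positivity)] at h1
      rw [hn, ← Real.le_logb_iff_rpow_le (by norm_num) (by linarith)]
      refine le_trans (le_of_eq ?_) h1
      ring)
  have hK2S := (sp_Sub (lb x)).mp hK2
  have hc1 := cR_one M D
  refine ⟨f, fun k ω => pw (S.dl 1 k) (fac ((x k).g ω)) (f k ω).1 (f k ω).2.1,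
    fun k => cR M D * (K1 k + 1) + 2 * cR M D * K2 k, fun k ω => pw_deg _ _ _ _, ?_, ?_, ?_, ?_⟩
  · intro k ω ω' a b c d hff
    beta_reduce
    rw [((x k).meas ω ω' a b c d).1, hff]
  · intro k ω ω' a b c d hQ
    have h1 := ((x k).meas ω ω' a b c d).1
    show ix (S.dl 1 k) (S.dl_pos 1 k) z (fac ((x k).g ω)) (Q.v k ((x k).l.p.π ω)) =
      ix (S.dl 1 k) (S.dl_pos 1 k) z (fac ((x k).g ω')) (Q.v k ((x k).l.p.π ω'))
    rw [h1, hQ]
  · exact ((S.Sub_const (by linarith)).mul (hK1.add (S.Sub_const zero_le_one))).add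
      ((S.Sub_const (by linarith)).mul hK2S)
  · refine typ_mono (typ_and hT1 hT2) ?_
    filter_upwards [hx 1 one_pos, hK1.1] with k hk hK10 ω hω hh
    obtain ⟨h1, h2⟩ := hh
    have hn : (((lb x).sp).F k).n = (S.F k).n := sp_n (lb x) k
    rw [hn] at h2
    have hc := (hk.2.1 ω hω).1
    have hK21 := hK2' k
    have hJ := hf k ω
    have hv := pw_val (S.dl 1 k) (S.dl_pos 1 k) (fac ((x k).g ω)) (Q.v k ((x k).l.p.π ω)) (f k ω).1 (f k ω).2.1
      (f k ω).2.2
    rw [← fac_eq hc.pdM] at hJ hv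
    set a := MvPolynomial.eval (Q.v k ((x k).l.p.π ω)) (pw (S.dl 1 k) (fac ((x k).g ω)) (f k ω).1 (f k ω).2.1) with ha
    set b := MvPolynomial.eval (Q.v k ((x k).l.p.π ω)) (MvPolynomial.pderiv z
      (pw (S.dl 1 k) (fac ((x k).g ω)) (f k ω).1 (f k ω).2.1)) with hb
    constructor
    · have h3 : a ^ 2 ≤ cR M D * K1 k := hv.trans (mul_le_mul_of_nonneg_left h1 (by linarith))
      have h4 : |a| ^ 2 ≤ (cR M D * (K1 k + 1)) ^ 2 := by
        rw [sq_abs]
        refine h3.trans ?_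
        have h5 : cR M D * K1 k ≤ cR M D * (K1 k + 1) := mul_le_mul_of_nonneg_left (by linarith) (by linarith)
        have h6 : 1 ≤ cR M D * (K1 k + 1) := one_le_mul_of_one_le_of_one_le hc1 (by linarith)
        nlinarith
      have h5 := abs_le_of_sq_le_sq h4 (by positivity)
      rw [abs_abs] at h5
      have h6 : 0 ≤ 2 * cR M D * K2 k := by positivity
      linarith
    · have h3 : 1 ≤ Jq (S.dl 1 k) ((x k).g ω) (Q.v k ((x k).l.p.π ω)) z z := by
        have h4 := Pool.Agent.Helper26.MZ.Jq_ge_self hD (S.dl 1 k) (B := (x k).g ω) (fun v => hc.2.1 v)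
          (Q.v k ((x k).l.p.π ω)) (Pi.single z 1)
        rw [single_dv, single_dotProduct, one_mul, Pi.single_eq_same] at h4
        exact h4
      have h4 : Jz Q z k ((x k).l.p.π ω) ((x k).g ω) ≤ 2 * (cR M D * b ^ 2) := by
        unfold Jz
        linarith
      have h5 : 2 ^ (2 * θ * (S.F k).n) ≤ 2 * cR M D * K2 k * b ^ 2 := by
        refine h2.trans ?_
        have := mul_le_mul_of_nonneg_left h4 (by linarith : (0 : ℝ) ≤ K2 k)
        linarith
      have h6 : ((2 : ℝ) ^ (θ * (S.F k).n)) ^ 2 ≤ (2 * cR M D * K2 k * |b|) ^ 2 := by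
        have e1 : ((2 : ℝ) ^ (θ * (S.F k).n)) ^ 2 = 2 ^ (2 * θ * (S.F k).n) := by
          rw [← Real.rpow_natCast, ← Real.rpow_mul (by norm_num)]
          congr 1
          push_cast
          ring
        rw [e1, mul_pow, sq_abs]
        refine h5.trans ?_
        have h7 : 1 ≤ 2 * cR M D * K2 k := by nlinarith
        have h8 := sq_nonneg b
        nlinarith [mul_nonneg (by linarith : (0 : ℝ) ≤ 2 * cR M D * K2 k) h8]
      have h7 := abs_le_of_sq_le_sq h6 (by positivity)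
      rw [abs_of_pos (by positivity)] at h7
      refine h7.trans (mul_le_mul_of_nonneg_right ?_ (abs_nonneg _))
      have : 0 ≤ cR M D * (K1 k + 1) := by positivity
      linarith

end

end Pool.Agent.Helper48.ROK
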