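import Pool.Agent.Helper48.ROK.Fin
import Pool.Agent.Helper84.KR.Prt
import Pool.Agent.Helper18.PRM.Crd
import Pool.Agent.Helper7.RD.Kv
import Pool.Agent.Helper89.RAD.Sd

/-! ROWS OF K-LABELS (5): ROWS AND FRAMES FROM VOLUMES ONLY. If the volumes of all prefixes at the windows `(0, c]` are
linear, on all events of all extensions, then the numbers of all carriers are exact (structure theorem in the smaller
dimensions, helper89's `stD`; parts of forms, helper84), all rows exist, and there is a carrier with a frame. -/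

set_option autoImplicit false

namespace Pool.Agent.Helper48.ROK

open Finset Filter Topology Matrix Pool.Agent.Helper69.RK Pool.Agent.Helper31.EC Pool.Agent.Helper31.EC.Sp
open Pool.Agent.Helper40.EL Pool.Agent.Helper89.LX Pool.Agent.Helper3.LF Pool.Agent.Helper84.MT
open Pool.Agent.Helper89.RAK (Lit KC)
open Pool.Agent.Helper36.AM (Frm)
open Pool.Agent.Helper85.FRM (pre)
open Pool.Agent.Helper85.FRG (RowD Car frtd)
open Pool.Agent.Helper52.GF (scw)
open Pool.Agent.Helper14.MC (cnt_vol)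
open Pool.Agent.Helper18.PRM (vcrd scrd)
open Pool.Agent.Helper7.RD (volC volC_eq)
open Pool.Agent.Helper89.RAD (cnA dp DMD stD)
open Pool.Agent.Helper84.KR (prt optK_prt)

noncomputable section

variable {S T : Sp} {M m D : ℕ} {E : ℕ → ℕ} {ι κ : Type} {s : MSys S M E ι} {R : ∀ k, Setoid (S.F k).Ω}

/-- the first `m` coordinates -/
abbrev pf (Q : S.VV M) (hm : m ≤ M) : S.VV m := vcrd (Fin.castLE hm) Q

theorem pf_self (Q : S.VV M) : pf Q le_rfl = Q := rfl

theorem cnA_eq (s : MSys S M E ι) (A : Part S) (c : ℝ) : cnA s A c = scw s A c := funext fun i => by cases i <;> rfl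

theorem opt_scw {s : MSys S M E ι} {R : ∀ k, Setoid (S.F k).Ω} {c : ℝ} {Q : S.VV m} {x : ∀ k, FD (S.F k) (Mon m D)} :
    (gaq Q D).OptfK (KC R) (scw s (fun k => fc (R k)) c) x ↔ (gaq Q D).OptfK (KC R) (cnA s (dp R) c) x := by
  rw [cnA_eq]

theorem adf_scw {s : MSys S M E ι} {R : ∀ k, Setoid (S.F k).Ω} {c : ℝ} {Q : S.VV m} {x : ∀ k, FD (S.F k) (Mon m D)} :
    (gaq Q D).AdfK (KC R) (scw s (fun k => fc (R k)) c) x ↔ (gaq Q D).AdfK (KC R) (cnA s (dp R) c) x := by
  rw [cnA_eq]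

/-- THE VOLUMES of all prefixes at the window `c` are `Σ_(i < m) (1 - w_i c)` -/
def VolS (s : MSys S M E ι) (R : ∀ k, Setoid (S.F k).Ω) (D : ℕ) (c : ℝ) (w : Fin M → ℝ) : Prop :=
  ∀ (m : ℕ) (hm : m ≤ M), volC (KC R) (cnA s (dp R) c) (pf s.Q hm) D = ∑ i : Fin M, if i.val < m then 1 - w i * c else 0

/-- the volumes on all events of all extensions -/
def VolX (s : MSys S M E ι) (R : ∀ k, Setoid (S.F k).Ω) (D : ℕ) (c : ℝ) (w : Fin M → ℝ) : Prop :=
  ∀ (T : Sp) (p : Pj T S) (A : ∀ k, (T.F k).Ω → Prop) (hA : 0 < ul (T.pr A)), VolS (s.im p A hA) R D c w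

/-- the entropy of a prefix over a label -/
theorem H_pre (Q : S.VV M) (hm : m ≤ M) (l : Lab S) :
    H (up1 l ((pf Q hm).dg 1)) = ul (fun k => h ((l k).p.map (pre Q m k)) (l k).v / (S.F k).n) := by
  have e1 : (pf Q hm).dg 1 = cl ((pf Q hm).bdd 1).toInf := io_eq ((pf Q hm).bdd 1)
  rw [e1, H_up1_cl]
  congr 1
  funext k
  rw [pre_eq hm (P := pf Q hm) (fun _ _ _ => rfl) k]
  rfl

/-- THE NUMBERS FROM BELOW: the volume of the prefix is at most its entropy over every K-label of the window -/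
theorem num_low [Finite ι] {g : ℕ} {s : MSys S M (lin g) ι} (hm : m ≤ M) (hST : ∀ r, STm D m (lin g) (Fin r))
    (hlit : Lit R s.Q) (hD : 1 ≤ D) {c : ℝ} (h0 : 0 ≤ c) (h1 : c < 1) {l : Lab S} (hl : DMD s (dp R) R c l) :
    volC (KC R) (cnA s (dp R) c) (pf s.Q hm) D ≤ H (up1 l ((pf s.Q hm).dg 1)) := by
  obtain ⟨x, hx⟩ := (gaq (pf s.Q hm) D).exists_optfK (KC R) (cnA s (dp R) c)
  rw [volC_eq hx]
  have e1 : cnA (scrd (Fin.castLE hm) s) (dp R) c = cnA s (dp R) c := funext fun i => by cases i <;> rfl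
  have hlit' : Lit R (scrd (Fin.castLE hm) s).Q := by
    intro k ω ω' r
    have h2 : s.Q.v k ω = s.Q.v k ω' := hlit k r
    show (fun i => s.Q.v k ω (Fin.castLE hm i)) = fun i => s.Q.v k ω' (Fin.castLE hm i)
    rw [h2]
  have hl' : DMD (scrd (Fin.castLE hm) s) (dp R) R c l := by
    unfold DMD Pool.Agent.Helper89.RAD.DMA at hl ⊢
    rw [e1]
    exact hl
  have hx' : (gaq (scrd (Fin.castLE hm) s).Q D).OptfK (KC R) (cnA (scrd (Fin.castLE hm) s) (dp R) c) x := by
    rw [e1]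
    exact hx
  exact stD hST hlit' hD h0 h1 hl' hx'

/-- THE NUMBERS FROM ABOVE, over the label of an optimal form -/
theorem num_up (Q : S.VV M) (hm : m ≤ M) (hD : 1 ≤ D) {A : κ → Part S} {C : LC S} [Finite κ]
    {x : ∀ k, FD (S.F k) (Mon M D)} (hx : (gaq Q D).OptfK C A x) :
    H (up1 (lb x) ((pf Q hm).dg 1)) ≤ volC C A (pf Q hm) D := by
  have h1 := optK_prt (σ := Fin.castLE hm) (hσ := Fin.castLE_injective hm) (P := pf Q hm) (fun _ _ _ => rfl) hx
  rw [volC_eq h1]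
  exact cnt_vol (pf Q hm) hD (prt (Fin.castLE hm) (Fin.castLE_injective hm) x) h1.1.1

/-- **THE NUMBERS OF THE CARRIERS** from the volumes of the prefixes -/
theorem num_car [Finite ι] {g : ℕ} {s : MSys S M (lin g) ι} (hST : ∀ d, d < M → ∀ r, STm D d (lin g) (Fin r))
    (hlit : Lit R s.Q) (hD : 1 ≤ D) {c : ℝ} (h0 : 0 ≤ c) (h1 : c < 1) {w : Fin M → ℝ} (hV : VolS s R D c w) (l : Lab S)
    (hl : Car s R (fun k => fc (R k)) c l) (j : Fin M) :
    Tendsto (fun k => h ((l k).p.map (pre s.Q j.val k)) (l k).v / (S.F k).n) UF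
      (𝓝 (∑ i : Fin M, if i < j then 1 - w i * c else 0)) := by
  obtain ⟨x, hxl, hx⟩ := hl D
  have hl' : lb x = l := funext hxl
  have hx := opt_scw.1 hx
  have k1 := num_low j.isLt.le (hST j.val j.isLt) hlit hD h0 h1 (l := lb x) ⟨Gau.Adf.dm _ hx.1.1, hx.1.2⟩
  have k2 := num_up s.Q j.isLt.le hD hx
  rw [hl'] at k1 k2
  have k3 : H (up1 l ((pf s.Q j.isLt.le).dg 1)) = ∑ i : Fin M, if i < j then 1 - w i * c else 0 := by
    rw [le_antisymm k2 k1, hV j.val j.isLt.le]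
    rfl
  rw [H_pre] at k3
  rw [← k3]
  exact ul_tendsto (pre_UB s.Q j.isLt.le l)

/-- the numbers on all events -/
theorem numC_of [Finite ι] {g : ℕ} {s : MSys S M (lin g) ι} (hST : ∀ d, d < M → ∀ r, STm D d (lin g) (Fin r))
    (hlit : Lit R s.Q) (hD : 1 ≤ D) {c : ℝ} (h0 : 0 ≤ c) (h1 : c < 1) {w : Fin M → ℝ} (hV : VolX s R D c w) :
    NumC s R c w := fun T p A hA l hl j =>
  num_car (S := Sp.im p A) (s := s.im p A hA) (R := R) hST hlit hD h0 h1 (hV T p A hA) l hl j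

/-- the volumes in the form of the rows -/
theorem volC_of [Finite ι] {D : ℕ} {c : ℝ} {w : Fin M → ℝ} (hV : VolS s R D c w) (hX : VolX s R D c w) :
    VolC s R D c w where
  pre := by
    intro j hj
    obtain ⟨y, hy⟩ := (gaq (pf s.Q (Nat.succ_le_of_lt j.isLt)) D).exists_optfK (KC R) (cnA s (dp R) c)
    refine ⟨pf s.Q (Nat.succ_le_of_lt j.isLt), y, fun _ _ _ => rfl, ?_, ?_⟩
    · exact adf_scw.2 hy.1
    · rw [← volC_eq hy, hV (j.val + 1) (Nat.succ_le_of_lt j.isLt)]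
      refine le_of_eq (Finset.sum_congr rfl fun i _ => ?_)
      have h1 : i.val < j.val + 1 ↔ i ≤ j := by
        rw [Fin.le_def]
        omega
      exact if_congr h1 rfl rfl
  all := by
    obtain ⟨y, hy⟩ := (gaq s.Q D).exists_optfK (KC R) (cnA s (dp R) c)
    refine ⟨y, ?_, ?_⟩
    · exact adf_scw.2 hy.1
    · have h1 := hV M le_rfl
      rw [pf_self, volC_eq hy] at h1
      rw [h1]
      exact le_of_eq (Finset.sum_congr rfl fun i _ => if_pos i.isLt)
  low := by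
    intro T p A hA y hy
    have h1 := hX T p A hA M le_rfl
    rw [pf_self] at h1
    have h2 := Pool.Agent.Helper7.RD.volC_le_of ((adf_scw (S := Sp.im p A) (s := s.im p A hA) (R := R)).1 hy)
    rw [h1] at h2
    refine le_trans (le_of_eq (Finset.sum_congr rfl fun i _ => ?_)) h2
    rw [if_pos i.isLt]

/-- **THE ROWS FROM THE VOLUMES**, at one window -/
theorem rowD_vol [Finite ι] {g : ℕ} {s : MSys S M (lin g) ι} (hST : ∀ d, d < M → ∀ r, STm D d (lin g) (Fin r))
    (hlit : Lit R s.Q) (hD : 1 ≤ D) {c : ℝ} (h0 : 0 ≤ c) (h1 : c < 1) {w : Fin M → ℝ} (hV : VolS s R D c w)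
    (hX : VolX s R D c w) (j : Fin M) : RowD s R c j (w j * c) :=
  rowD hlit hD (low_of_num hlit (numC_of hST hlit hD h0 h1 hX)) (volC_of hV hX) j

/-- **THE FRAMES FROM THE VOLUMES**: if the volumes of all prefixes are linear at the windows `(0, c]`, on all events of
all extensions, then some carrier of the window `c` has a frame with the exponents `w_j c` -/
theorem frames_vol [Finite ι] {g : ℕ} (s : MSys S M (lin g) ι) {R : ∀ k, Setoid (S.F k).Ω}
    (hST : ∀ d, d < M → ∀ r, STm D d (lin g) (Fin r)) (hlit : Lit R s.Q) (hD : 1 ≤ D) {w : Fin M → ℝ}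
    (hw : ∀ i, 1 ≤ w i) {c : ℝ} (hc : 0 < c) (hwc : ∀ i, w i * c < 1) (hc1 : c < 1)
    (hV : ∀ c' : ℝ, 0 < c' → c' ≤ c → VolS s R D c' w) (hX : ∀ c' : ℝ, 0 < c' → c' ≤ c → VolX s R D c' w) :
    ∃ (l : Lab S) (_ : Frm s.Q l fun j => w j * c), Car s R (fun k => fc (R k)) c l :=
  frames s hlit hD hw hc hwc
    (fun c' h0 h1 j l hl => num_car hST hlit hD h0.le (h1.trans_lt hc1) (hV c' h0 h1) l hl j)
    (fun c' h0 h1 => numC_of hST hlit hD h0.le (h1.trans_lt hc1) (hX c' h0 h1))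
    (fun c' h0 h1 => volC_of (hV c' h0 h1) (hX c' h0 h1))

end

end Pool.Agent.Helper48.ROK
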